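import Pool.Agent.H611CV.Stmts

set_option autoImplicit false

open scoped ENNReal

namespace H611CV

theorem conv_smul {G : Type} [Group G] (c : ℝ≥0∞) (k ξ : G → ℝ≥0∞) :
    conv (fun x => c * k x) ξ = fun x => c * conv k ξ x := by
  funext x
  simp only [conv]
  rw [← ENNReal.tsum_mul_left]
  congr 1
  funext y
  rw [mul_assoc]

theorem S_smul {G : Type} {p : ℝ} (hp : 0 ≤ p) (c : ℝ≥0∞) (u : G → ℝ≥0∞) :
    S p (fun x => c * u x) = c ^ p * S p u := by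
  simp only [S]
  rw [← ENNReal.tsum_mul_left]
  congr 1
  funext y
  rw [ENNReal.mul_rpow_of_nonneg _ _ hp]

theorem core {p b β : ℝ} (hp : 1 < p) (hb : 0 < b) (hβ : 0 < β - b * p) (K : ℕ) :
    ∃ J N : ℕ, 0 < J ∧ 0 < N ∧
      (K : ℝ≥0∞) ≤ ((2 * (J : ℝ≥0∞) ^ b)⁻¹) ^ p * ((J : ℝ≥0∞) ^ β / 2) ∧
      (J : ℝ≥0∞) ^ b + (J : ℝ≥0∞) * ((N : ℝ≥0∞)⁻¹) ^ b ≤ 2 * (J : ℝ≥0∞) ^ b := by
  have hp0 : (0 : ℝ) ≤ p := by linarith
  -- choice of J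
  obtain ⟨J, hJ⟩ : ∃ J : ℕ, 0 < J ∧ (K : ℝ≥0∞) * (2 * 2 ^ p) ≤ (J : ℝ≥0∞) ^ (β - b * p) := by
    set R : ℝ := (K : ℝ) * (2 * 2 ^ p) with hR
    have hR0 : 0 ≤ R := by positivity
    refine ⟨⌈R ^ (1 / (β - b * p))⌉₊ + 1, Nat.succ_pos _, ?_⟩
    set J : ℕ := ⌈R ^ (1 / (β - b * p))⌉₊ + 1 with hJ
    have h1 : R ^ (1 / (β - b * p)) ≤ (J : ℝ) := by
      rw [hJ]; push_cast
      have := Nat.le_ceil (R ^ (1 / (β - b * p)))
      linarith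
    have h2 : R ≤ (J : ℝ) ^ (β - b * p) := by
      calc R = (R ^ (1 / (β - b * p))) ^ (β - b * p) := by
            rw [← Real.rpow_mul hR0, one_div, inv_mul_cancel₀ hβ.ne', Real.rpow_one]
        _ ≤ _ := Real.rpow_le_rpow (by positivity) h1 hβ.le
    have h3 := ENNReal.ofReal_le_ofReal h2
    have h4 : ENNReal.ofReal R = (K : ℝ≥0∞) * (2 * 2 ^ p) := by
      rw [hR, ENNReal.ofReal_mul (by positivity), ENNReal.ofReal_natCast,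
        ENNReal.ofReal_mul (by positivity), ← ENNReal.ofReal_rpow_of_pos (by norm_num)]
      norm_num
    have h5 : ENNReal.ofReal ((J : ℝ) ^ (β - b * p)) = (J : ℝ≥0∞) ^ (β - b * p) := by
      rw [← ENNReal.ofReal_rpow_of_nonneg (Nat.cast_nonneg J) hβ.le, ENNReal.ofReal_natCast]
    rwa [h4, h5] at h3
  obtain ⟨hJ0, hJK⟩ := hJ
  have hJne : (J : ℝ≥0∞) ≠ 0 := by exact_mod_cast hJ0.ne'
  have hJt : (J : ℝ≥0∞) ≠ ∞ := ENNReal.natCast_ne_top J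
  have hJ1 : (1 : ℝ≥0∞) ≤ (J : ℝ≥0∞) := by exact_mod_cast hJ0
  -- choice of N
  obtain ⟨N, hN0, hN⟩ : ∃ N : ℕ, 0 < N ∧ (J : ℝ≥0∞) ≤ (N : ℝ≥0∞) ^ b := by
    refine ⟨⌈(J : ℝ) ^ (1 / b)⌉₊ + 1, Nat.succ_pos _, ?_⟩
    set N : ℕ := ⌈(J : ℝ) ^ (1 / b)⌉₊ + 1 with hN
    have h1 : (J : ℝ) ^ (1 / b) ≤ (N : ℝ) := by
      rw [hN]; push_cast
      have := Nat.le_ceil ((J : ℝ) ^ (1 / b))
      linarith
    have h2 : (J : ℝ) ≤ (N : ℝ) ^ b := by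
      calc (J : ℝ) = ((J : ℝ) ^ (1 / b)) ^ b := by
            rw [← Real.rpow_mul (Nat.cast_nonneg J), one_div, inv_mul_cancel₀ hb.ne', Real.rpow_one]
        _ ≤ _ := Real.rpow_le_rpow (by positivity) h1 hb.le
    have h3 := ENNReal.ofReal_le_ofReal h2
    rwa [← ENNReal.ofReal_rpow_of_nonneg (Nat.cast_nonneg N) hb.le, ENNReal.ofReal_natCast,
      ENNReal.ofReal_natCast] at h3
  refine ⟨J, N, hJ0, hN0, ?_, ?_⟩
  · have hx : (2 * (J : ℝ≥0∞) ^ b) ^ p = 2 ^ p * (J : ℝ≥0∞) ^ (b * p) := by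
      rw [ENNReal.mul_rpow_of_nonneg _ _ hp0, ENNReal.rpow_mul]
    rw [ENNReal.inv_rpow, hx]
    have hx0 : (2 : ℝ≥0∞) ^ p * (J : ℝ≥0∞) ^ (b * p) ≠ 0 := by
      apply mul_ne_zero
      · exact (ENNReal.rpow_pos (by norm_num) (by norm_num)).ne'
      · exact (ENNReal.rpow_pos (pos_iff_ne_zero.2 hJne) hJt).ne'
    have hxt : (2 : ℝ≥0∞) ^ p * (J : ℝ≥0∞) ^ (b * p) ≠ ∞ := by
      apply ENNReal.mul_ne_top
      · exact ENNReal.rpow_ne_top_of_nonneg hp0 (by norm_num)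
      · exact ENNReal.rpow_ne_top_of_nonneg (by positivity) hJt
    rw [mul_comm, ← div_eq_mul_inv, ENNReal.le_div_iff_mul_le (Or.inl hx0) (Or.inl hxt),
      ENNReal.le_div_iff_mul_le (Or.inl (by norm_num)) (Or.inl (by norm_num))]
    have h6 : (J : ℝ≥0∞) ^ β = (J : ℝ≥0∞) ^ (β - b * p) * (J : ℝ≥0∞) ^ (b * p) := by
      rw [← ENNReal.rpow_add _ _ hJne hJt]
      congr 1; ring
    rw [h6]
    calc (K : ℝ≥0∞) * (2 ^ p * (J : ℝ≥0∞) ^ (b * p)) * 2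
        = ((K : ℝ≥0∞) * (2 * 2 ^ p)) * (J : ℝ≥0∞) ^ (b * p) := by ring
      _ ≤ _ := by gcongr
  · rw [two_mul]
    gcongr
    have h7 : (J : ℝ≥0∞) * ((N : ℝ≥0∞)⁻¹) ^ b ≤ 1 := by
      rw [ENNReal.inv_rpow]
      calc (J : ℝ≥0∞) * ((N : ℝ≥0∞) ^ b)⁻¹ ≤ (N : ℝ≥0∞) ^ b * ((N : ℝ≥0∞) ^ b)⁻¹ := by gcongr
        _ ≤ 1 := ENNReal.mul_inv_le_one _
    refine h7.trans ?_
    calc (1 : ℝ≥0∞) = 1 ^ b := (ENNReal.one_rpow b).symm
      _ ≤ _ := ENNReal.rpow_le_rpow hJ1 hb.le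

theorem inv_mul_pow {p : ℝ} (hp : 0 ≤ p) (c : ℝ≥0∞) (hc : c ≠ 0) (hct : c ≠ ∞) :
    (c⁻¹) ^ p * c ^ p = 1 := by
  rw [← ENNReal.mul_rpow_of_nonneg _ _ hp, ENNReal.inv_mul_cancel hc hct, ENNReal.one_rpow]

theorem final (h1 : Task1) (h2 : Task2) (h3 : Task3) (h4 : Task4) (h5 : Task5) (h6 : Task6)
    (G : Type) [Group G] (φ : FreeGroup (Fin 2) →* G) (hφ : Function.Injective φ)
    (p : ℝ) (hp : 1 < p) (hp2 : p ≠ 2) :
    ∃ f : G → ℂ, IsConv p f ∧ ¬ IsConv p (fun g => starRingEnd ℂ (f g⁻¹)) := by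
  have hp0 : (0 : ℝ) ≤ p := by linarith
  obtain ⟨s, t, D, E, pp⟩ := h4 G φ hφ
  have hinj : ∀ i j : ℕ, t ^ i = t ^ j → i = j := by
    intro i j hij
    by_contra hne
    obtain ⟨x, hx⟩ := pp.ne
    exact pp.tD i j hne x hx x hx (by rw [hij])
  apply h5 G p hp
  intro K
  rcases lt_or_gt_of_ne hp2 with hlt | hgt
  · -- p < 2
    have hb : 0 < 1 - 1 / p := by
      have : 1 / p < 1 := by rw [div_lt_one (by linarith)]; exact hp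
      linarith
    have hβ : 0 < (1 : ℝ) - (1 - 1 / p) * p := by
      have : (1 - 1 / p) * p = p - 1 := by field_simp
      rw [this]; linarith
    obtain ⟨J, N, hJ0, hN0, hK, hsum⟩ := core hp hb hβ K
    set c : ℝ≥0∞ := (2 * (J : ℝ≥0∞) ^ (1 - 1 / p)) with hc
    have hJne : (J : ℝ≥0∞) ≠ 0 := by exact_mod_cast hJ0.ne'
    have hJt : (J : ℝ≥0∞) ≠ ∞ := ENNReal.natCast_ne_top J
    have hc0 : c ≠ 0 := mul_ne_zero (by norm_num) (ENNReal.rpow_pos (pos_iff_ne_zero.2 hJne) hJt).ne'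
    have hct : c ≠ ∞ := ENNReal.mul_ne_top (by norm_num) (ENNReal.rpow_ne_top_of_nonneg hb.le hJt)
    refine ⟨fun x => c⁻¹ * ker s t J N x⁻¹, fun ξ => ?_, ?_⟩
    · rw [conv_smul, (h6 G s t J N ξ).2, S_smul hp0]
      calc (c⁻¹) ^ p * S p (opG s t J N ξ)
          ≤ (c⁻¹) ^ p * (((J : ℝ≥0∞) ^ (1 - 1 / p) +
              (J : ℝ≥0∞) * ((N : ℝ≥0∞)⁻¹) ^ (1 - 1 / p)) ^ p * S p ξ) := by
            gcongr
            exact h2 G s t D E pp p hp J N hJ0 hN0 ξ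
        _ ≤ (c⁻¹) ^ p * (c ^ p * S p ξ) := by gcongr
        _ = S p ξ := by rw [← mul_assoc, inv_mul_pow hp0 c hc0 hct, one_mul]
    · obtain ⟨A, hA, hle⟩ := (h3 G s t hinj p hp J N hJ0 hN0).1
      refine ⟨A, hA, ?_⟩
      have e : (fun x : G => c⁻¹ * ker s t J N (x⁻¹)⁻¹) = fun x => c⁻¹ * ker s t J N x := by
        funext x; rw [inv_inv]
      show (K : ℝ≥0∞) * S p (ind A) ≤
        S p (conv (fun x : G => c⁻¹ * ker s t J N (x⁻¹)⁻¹) (ind A))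
      rw [e, conv_smul, (h6 G s t J N (ind A)).1, S_smul hp0]
      calc (K : ℝ≥0∞) * S p (ind A)
          ≤ ((c⁻¹) ^ p * ((J : ℝ≥0∞) ^ (1 : ℝ) / 2)) * S p (ind A) := by gcongr
        _ = (c⁻¹) ^ p * (((J : ℝ≥0∞) / 2) * S p (ind A)) := by rw [ENNReal.rpow_one]; ring
        _ ≤ _ := by gcongr
  · -- p > 2
    have hb : 0 < 1 / p := by positivity
    have hβ : 0 < (p - 1) - (1 / p) * p := by
      have : (1 / p) * p = 1 := by field_simp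
      rw [this]; linarith
    obtain ⟨J, N, hJ0, hN0, hK, hsum⟩ := core hp hb hβ K
    set c : ℝ≥0∞ := (2 * (J : ℝ≥0∞) ^ (1 / p)) with hc
    have hJne : (J : ℝ≥0∞) ≠ 0 := by exact_mod_cast hJ0.ne'
    have hJt : (J : ℝ≥0∞) ≠ ∞ := ENNReal.natCast_ne_top J
    have hc0 : c ≠ 0 := mul_ne_zero (by norm_num) (ENNReal.rpow_pos (pos_iff_ne_zero.2 hJne) hJt).ne'
    have hct : c ≠ ∞ := ENNReal.mul_ne_top (by norm_num) (ENNReal.rpow_ne_top_of_nonneg hb.le hJt)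
    refine ⟨fun x => c⁻¹ * ker s t J N x, fun ξ => ?_, ?_⟩
    · rw [conv_smul, (h6 G s t J N ξ).1, S_smul hp0]
      calc (c⁻¹) ^ p * S p (opF s t J N ξ)
          ≤ (c⁻¹) ^ p * (((J : ℝ≥0∞) ^ (1 / p) +
              (J : ℝ≥0∞) * ((N : ℝ≥0∞)⁻¹) ^ (1 / p)) ^ p * S p ξ) := by
            gcongr
            exact h1 G s t D E pp p hp J N hJ0 hN0 ξ
        _ ≤ (c⁻¹) ^ p * (c ^ p * S p ξ) := by gcongr
        _ = S p ξ := by rw [← mul_assoc, inv_mul_pow hp0 c hc0 hct, one_mul]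
    · obtain ⟨A, hA, hle⟩ := (h3 G s t hinj p hp J N hJ0 hN0).2
      refine ⟨A, hA, ?_⟩
      show (K : ℝ≥0∞) * S p (ind A) ≤
        S p (conv (fun x : G => c⁻¹ * ker s t J N x⁻¹) (ind A))
      rw [conv_smul, (h6 G s t J N (ind A)).2, S_smul hp0]
      calc (K : ℝ≥0∞) * S p (ind A)
          ≤ ((c⁻¹) ^ p * ((J : ℝ≥0∞) ^ (p - 1) / 2)) * S p (ind A) := by gcongr
        _ = (c⁻¹) ^ p * (((J : ℝ≥0∞) ^ (p - 1) / 2) * S p (ind A)) := by ring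
        _ ≤ _ := by gcongr

end H611CV
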