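import Mathlib

/-!
Project H611-CV (MP_830418_an): in every group containing a free group on two generators there is,
for every `p ≠ 2`, a `p`-convolver whose involute is not a `p`-convolver.
All functions here are nonnegative, with values in `ℝ≥0∞`, so that there are no summability issues.
-/

set_option autoImplicit false

open scoped ENNReal

namespace H611CV

/-- Convolution `(k * ξ)(x) = ∑ y, k(x y⁻¹) ξ(y)` of nonnegative functions. -/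
noncomputable def conv {G : Type} [Group G] (k ξ : G → ℝ≥0∞) (x : G) : ℝ≥0∞ :=
  ∑' y, k (x * y⁻¹) * ξ y

/-- `∑ ξ(x)^p`, the `p`-th power of the `ℓ^p` norm. -/
noncomputable def S {G : Type} (p : ℝ) (ξ : G → ℝ≥0∞) : ℝ≥0∞ := ∑' x, ξ x ^ p

/-- The indicator function of a finite set. -/
noncomputable def ind {G : Type} (A : Finset G) (x : G) : ℝ≥0∞ :=
  open Classical in if x ∈ A then 1 else 0

/-- The kernel `f = (1/N) ∑_{1 ≤ i ≤ J, 1 ≤ n ≤ N} δ(t^i s t^n)`. -/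
noncomputable def ker {G : Type} [Group G] (s t : G) (J N : ℕ) (x : G) : ℝ≥0∞ :=
  open Classical in
  (N : ℝ≥0∞)⁻¹ * ∑ i ∈ Finset.range J, ∑ n ∈ Finset.range N,
    if x = t ^ (i + 1) * s * t ^ (n + 1) then 1 else 0

/-- Convolution with `ker`: `(F ξ)(x) = (1/N) ∑ ξ((t^i s t^n)⁻¹ x)`. -/
noncomputable def opF {G : Type} [Group G] (s t : G) (J N : ℕ) (ξ : G → ℝ≥0∞) (x : G) : ℝ≥0∞ :=
  (N : ℝ≥0∞)⁻¹ * ∑ i ∈ Finset.range J, ∑ n ∈ Finset.range N,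
    ξ ((t ^ (i + 1) * s * t ^ (n + 1))⁻¹ * x)

/-- Convolution with the involute of `ker`: `(F* ξ)(x) = (1/N) ∑ ξ(t^i s t^n x)`. -/
noncomputable def opG {G : Type} [Group G] (s t : G) (J N : ℕ) (ξ : G → ℝ≥0∞) (x : G) : ℝ≥0∞ :=
  (N : ℝ≥0∞)⁻¹ * ∑ i ∈ Finset.range J, ∑ n ∈ Finset.range N,
    ξ ((t ^ (i + 1) * s * t ^ (n + 1)) * x)

/-- Ping-pong data: `s` maps the complement of `D` into `E`, `s⁻¹` maps the complement of `E` into
`D`, and the translates `t^i D` (and `t^i E`), `i ∈ ℕ`, are pairwise disjoint; `D` is nonempty. -/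
structure PP {G : Type} [Group G] (s t : G) (D E : Set G) : Prop where
  sD : ∀ x, x ∉ D → s * x ∈ E
  sE : ∀ x, x ∉ E → s⁻¹ * x ∈ D
  tD : ∀ i j : ℕ, i ≠ j → ∀ x ∈ D, ∀ y ∈ D, t ^ i * x ≠ t ^ j * y
  tE : ∀ i j : ℕ, i ≠ j → ∀ x ∈ E, ∀ y ∈ E, t ^ i * x ≠ t ^ j * y
  ne : D.Nonempty

/-- T1: upper bound for `F` on `ℓ^p`. -/
def Task1 : Prop :=
  ∀ (G : Type) [Group G] (s t : G) (D E : Set G), PP s t D E →
    ∀ (p : ℝ), 1 < p → ∀ (J N : ℕ), 0 < J → 0 < N → ∀ ξ : G → ℝ≥0∞,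
      S p (opF s t J N ξ) ≤
        ((J : ℝ≥0∞) ^ (1 / p) + (J : ℝ≥0∞) * ((N : ℝ≥0∞)⁻¹) ^ (1 / p)) ^ p * S p ξ

/-- T2: upper bound for `F*` on `ℓ^p`. -/
def Task2 : Prop :=
  ∀ (G : Type) [Group G] (s t : G) (D E : Set G), PP s t D E →
    ∀ (p : ℝ), 1 < p → ∀ (J N : ℕ), 0 < J → 0 < N → ∀ ξ : G → ℝ≥0∞,
      S p (opG s t J N ξ) ≤
        ((J : ℝ≥0∞) ^ (1 - 1 / p) + (J : ℝ≥0∞) * ((N : ℝ≥0∞)⁻¹) ^ (1 - 1 / p)) ^ p * S p ξ

/-- T3: lower bounds for `F` and `F*` on `ℓ^p`, with indicator functions of finite sets. -/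
def Task3 : Prop :=
  ∀ (G : Type) [Group G] (s t : G), (∀ i j : ℕ, t ^ i = t ^ j → i = j) →
    ∀ (p : ℝ), 1 < p → ∀ (J N : ℕ), 0 < J → 0 < N →
      (∃ A : Finset G, A.Nonempty ∧
        ((J : ℝ≥0∞) / 2) * S p (ind A) ≤ S p (opF s t J N (ind A))) ∧
      (∃ A : Finset G, A.Nonempty ∧
        ((J : ℝ≥0∞) ^ (p - 1) / 2) * S p (ind A) ≤ S p (opG s t J N (ind A)))

/-- T4: ping-pong data in a group containing a free group on two generators. -/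
def Task4 : Prop :=
  ∀ (G : Type) [Group G] (φ : FreeGroup (Fin 2) →* G), Function.Injective φ →
    ∃ (s t : G) (D E : Set G), PP s t D E

/-- `f` is a `p`-convolver (the formulation of the frozen statement S05239). -/
def IsConv {G : Type} [Group G] (p : ℝ) (f : G → ℂ) : Prop :=
  ∃ C : ℝ, ∀ ξ : G →₀ ℂ,
    Summable (fun g : G => ‖∑ k ∈ ξ.support, f (g * k⁻¹) * ξ k‖ ^ p) ∧
    ∑' g : G, ‖∑ k ∈ ξ.support, f (g * k⁻¹) * ξ k‖ ^ p ≤ C * ∑ k ∈ ξ.support, ‖ξ k‖ ^ p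

/-- T5: gliding hump. If for every `K` there is a kernel `k` with norm at most one on `ℓ^p` whose
involute has norm to the `p` at least `K`, then there is a `p`-convolver whose involute is not a
`p`-convolver. -/
def Task5 : Prop :=
  ∀ (G : Type) [Group G] (p : ℝ), 1 < p →
    (∀ K : ℕ, ∃ k : G → ℝ≥0∞, (∀ ξ : G → ℝ≥0∞, S p (conv k ξ) ≤ S p ξ) ∧
      ∃ A : Finset G, A.Nonempty ∧ (K : ℝ≥0∞) * S p (ind A) ≤ S p (conv (fun x => k x⁻¹) (ind A))) →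
    ∃ f : G → ℂ, IsConv p f ∧ ¬ IsConv p (fun g => starRingEnd ℂ (f g⁻¹))

/-- T6: `opF` and `opG` are convolution operators. -/
def Task6 : Prop :=
  ∀ (G : Type) [Group G] (s t : G) (J N : ℕ) (ξ : G → ℝ≥0∞),
    conv (ker s t J N) ξ = opF s t J N ξ ∧ conv (fun x => ker s t J N x⁻¹) ξ = opG s t J N ξ

end H611CV
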