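import Pool.Agent.H611CV.Stmts

set_option autoImplicit false

open scoped ENNReal

namespace H611CV

variable {G : Type}

theorem T3.S_ind (p : ℝ) (hp : 0 < p) (A : Finset G) : S p (ind A) = (A.card : ℝ≥0∞) := by
  classical
  unfold S
  rw [tsum_eq_sum (s := A)]
  · rw [Finset.sum_congr rfl (g := fun _ => (1 : ℝ≥0∞))]
    · simp
    · intro x hx
      simp [ind, hx]
  · intro x hx
    simp [ind, hx, ENNReal.zero_rpow_of_pos hp]

theorem T3.sum_rpow_le (p : ℝ) (hp : 1 ≤ p) {ι : Type} (T : Finset ι) (a : ι → ℝ≥0∞) :
    ∑ i ∈ T, a i ^ p ≤ (∑ i ∈ T, a i) ^ p := by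
  classical
  induction T using Finset.induction_on with
  | empty => simp [ENNReal.zero_rpow_of_pos (lt_of_lt_of_le one_pos hp)]
  | insert i T hi ih =>
    rw [Finset.sum_insert hi, Finset.sum_insert hi]
    exact (add_le_add le_rfl ih).trans (ENNReal.add_rpow_le_rpow_add _ _ hp)

theorem T3.S_ge (p : ℝ) (ξ : G → ℝ≥0∞) (f : ℕ → G) (T : Finset ℕ)
    (hf : ∀ i j, f i = f j → i = j) (c : ℝ≥0∞) (hc : ∀ k ∈ T, c ≤ ξ (f k) ^ p) :
    (T.card : ℝ≥0∞) * c ≤ S p ξ := by
  classical
  unfold S
  have h1 : ∑ x ∈ T.image f, ξ x ^ p ≤ ∑' x, ξ x ^ p := ENNReal.sum_le_tsum _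
  refine le_trans ?_ h1
  rw [Finset.sum_image (fun a _ b _ h => hf a b h)]
  calc (T.card : ℝ≥0∞) * c = ∑ _k ∈ T, c := by simp
    _ ≤ _ := Finset.sum_le_sum hc

theorem task3 : Task3 := by
  intro G _ s t ht p hp J N hJ hN
  classical
  have hp0 : 0 < p := by linarith
  have hN0 : (N : ℝ≥0∞) ≠ 0 := by simpa using hN.ne'
  have hNt : (N : ℝ≥0∞) ≠ ⊤ := ENNReal.natCast_ne_top N
  have hJ0 : (J : ℝ≥0∞) ≠ 0 := by simpa using hJ.ne'
  have hJt : (J : ℝ≥0∞) ≠ ⊤ := ENNReal.natCast_ne_top J
  constructor
  · refine ⟨(Finset.range (2 * N)).image (fun k => t ^ k), ?_, ?_⟩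
    · rw [Finset.image_nonempty, Finset.nonempty_range_iff]; omega
    · set A := (Finset.range (2 * N)).image (fun k => t ^ k) with hA
      rw [T3.S_ind p hp0 A]
      have hcard : A.card = 2 * N := by
        rw [hA, Finset.card_image_of_injective _ (fun a b h => ht a b h), Finset.card_range]
      rw [hcard]
      set η : G → ℝ≥0∞ := fun y => (N : ℝ≥0∞)⁻¹ * ∑ n ∈ Finset.range N,
        ind A ((t ^ (n + 1))⁻¹ * y) with hη
      have h1 : ∀ x, opF s t J N (ind A) x =
          ∑ i ∈ Finset.range J, η (s⁻¹ * (t ^ (i + 1))⁻¹ * x) := by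
        intro x
        simp only [opF, hη, Finset.mul_sum]
        refine Finset.sum_congr rfl fun i _ => Finset.sum_congr rfl fun n _ => ?_
        congr 2
        group
      have h2 : (J : ℝ≥0∞) * S p η ≤ S p (opF s t J N (ind A)) := by
        unfold S
        calc (J : ℝ≥0∞) * ∑' x, η x ^ p
            = ∑ i ∈ Finset.range J, ∑' x, η (s⁻¹ * (t ^ (i + 1))⁻¹ * x) ^ p := by
              rw [Finset.sum_congr rfl (g := fun _ => ∑' x, η x ^ p)]
              · simp
              · intro i _
                exact (Equiv.mulLeft (s⁻¹ * (t ^ (i + 1))⁻¹)).tsum_eq (fun x => η x ^ p)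
          _ = ∑' x, ∑ i ∈ Finset.range J, η (s⁻¹ * (t ^ (i + 1))⁻¹ * x) ^ p := by
              rw [Summable.tsum_finsetSum]
              intro i _
              exact ENNReal.summable
          _ ≤ ∑' x, opF s t J N (ind A) x ^ p := by
              refine ENNReal.tsum_le_tsum fun x => ?_
              rw [h1 x]
              exact T3.sum_rpow_le p hp.le _ _
      have h3 : (N : ℝ≥0∞) ≤ S p η := by
        have := T3.S_ge p η (fun k => t ^ (N + k)) (Finset.range N)
          (fun i j h => by have := ht _ _ h; omega) 1 (by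
            intro k hk
            rw [Finset.mem_range] at hk
            have : η (t ^ (N + k)) = 1 := by
              simp only [hη]
              rw [Finset.sum_congr rfl (g := fun _ => (1 : ℝ≥0∞))]
              · simp [ENNReal.inv_mul_cancel hN0 hNt]
              · intro n hn
                rw [Finset.mem_range] at hn
                have hmem : (t ^ (n + 1))⁻¹ * t ^ (N + k) ∈ A := by
                  rw [hA, Finset.mem_image]
                  refine ⟨N + k - (n + 1), ?_, ?_⟩
                  · rw [Finset.mem_range]; omega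
                  · rw [eq_inv_mul_iff_mul_eq, ← pow_add]
                    congr 1
                    omega
                simp [ind, hmem]
            rw [this]; simp)
        simpa using this
      calc ((J : ℝ≥0∞) / 2) * ((2 * N : ℕ) : ℝ≥0∞) = J * N := by
            push_cast
            rw [← mul_assoc, ENNReal.div_mul_cancel (by norm_num) (by norm_num)]
        _ ≤ J * S p η := by gcongr
        _ ≤ _ := h2
  · refine ⟨((Finset.range J) ×ˢ (Finset.range (2 * N))).image
      (fun q => t ^ (q.1 + 1) * s * t ^ q.2), ?_, ?_⟩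
    · rw [Finset.image_nonempty, Finset.nonempty_product, Finset.nonempty_range_iff,
        Finset.nonempty_range_iff]
      omega
    · set A := ((Finset.range J) ×ˢ (Finset.range (2 * N))).image
        (fun q => t ^ (q.1 + 1) * s * t ^ q.2) with hA
      rw [T3.S_ind p hp0 A]
      have hcard : A.card ≤ J * (2 * N) := by
        refine Finset.card_image_le.trans ?_
        simp
      have hcard' : (A.card : ℝ≥0∞) ≤ (J : ℝ≥0∞) * (2 * N) := by exact_mod_cast hcard
      have h3 : (N : ℝ≥0∞) * (J : ℝ≥0∞) ^ p ≤ S p (opG s t J N (ind A)) := by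
        have := T3.S_ge p (opG s t J N (ind A)) (fun k => t ^ k) (Finset.range N)
          ht ((J : ℝ≥0∞) ^ p) (by
            intro k hk
            rw [Finset.mem_range] at hk
            have : opG s t J N (ind A) (t ^ k) = J := by
              simp only [opG]
              rw [Finset.sum_congr rfl (g := fun _ => (N : ℝ≥0∞))]
              · simp only [Finset.sum_const, Finset.card_range, nsmul_eq_mul]
                rw [mul_comm (J : ℝ≥0∞), ← mul_assoc, ENNReal.inv_mul_cancel hN0 hNt, one_mul]
              · intro i hi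
                rw [Finset.sum_congr rfl (g := fun _ => (1 : ℝ≥0∞))]
                · simp
                · intro n hn
                  rw [Finset.mem_range] at hn hi
                  have hmem : t ^ (i + 1) * s * t ^ (n + 1) * t ^ k ∈ A := by
                    rw [hA, Finset.mem_image]
                    refine ⟨(i, n + 1 + k), ?_, ?_⟩
                    · rw [Finset.mem_product, Finset.mem_range, Finset.mem_range]
                      exact ⟨hi, by simp only; omega⟩
                    · simp only [pow_add, mul_assoc]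
                  simp [ind, hmem]
            rw [this])
        simpa using this
      refine le_trans ?_ h3
      calc ((J : ℝ≥0∞) ^ (p - 1) / 2) * (A.card : ℝ≥0∞)
          ≤ ((J : ℝ≥0∞) ^ (p - 1) / 2) * ((J : ℝ≥0∞) * (2 * N)) := by gcongr
        _ = ((J : ℝ≥0∞) ^ (p - 1) / 2 * 2) * (J : ℝ≥0∞) * N := by ring
        _ = (N : ℝ≥0∞) * (J : ℝ≥0∞) ^ p := by
            rw [ENNReal.div_mul_cancel (by norm_num) (by norm_num)]
            have : (J : ℝ≥0∞) ^ (p - 1) * (J : ℝ≥0∞) = (J : ℝ≥0∞) ^ p := by
              nth_rewrite 2 [← ENNReal.rpow_one (J : ℝ≥0∞)]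
              rw [← ENNReal.rpow_add _ _ hJ0 hJt]
              congr 1
              ring
            rw [this, mul_comm]

end H611CV
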