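import Mathlib
import Pool.Agent.H611CV.Stmts

/-! Task T4 of project H611-CV (helper703): ping-pong data from a free subgroup. -/

set_option autoImplicit false

namespace H611CV

namespace T4

open FreeGroup

abbrev F2 := FreeGroup (Fin 2)

theorem sw_ne {w w' : Fin 2 × Bool} (h : w ≠ w') {g : F2} (hg : g ∈ startsWith w) :
    g ∉ startsWith w' := by
  intro hg'
  exact Set.disjoint_left.1 (startsWith.disjoint_iff_ne.2 h) hg hg'

/-- `b ^ (k + 1) * y` starts with `b` if `y` starts with a letter `a` or `a⁻¹` -/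
theorem pow_sw {y : F2} (hy : y ∉ startsWith ((1 : Fin 2), false)) (k : ℕ) :
    (of (1 : Fin 2)) ^ (k + 1) * y ∈ startsWith ((1 : Fin 2), true) := by
  induction k with
  | zero =>
    rw [zero_add, pow_one]
    exact startsWith_mk_mul (w := ((1 : Fin 2), true)) y (by simpa using hy)
  | succ k ih =>
    rw [pow_succ', mul_assoc]
    exact startsWith_mk_mul (w := ((1 : Fin 2), true)) _
      (by simpa using sw_ne (w' := ((1 : Fin 2), false)) (by simp) ih)

theorem free_disj {c : Bool} {x y : F2} (hx : x ∈ startsWith ((0 : Fin 2), c))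
    (hy : y ∈ startsWith ((0 : Fin 2), c)) {i j : ℕ} (hij : i < j) :
    (of (1 : Fin 2)) ^ i * x ≠ (of (1 : Fin 2)) ^ j * y := by
  intro h
  obtain ⟨k, rfl⟩ : ∃ k, j = i + (k + 1) := ⟨j - i - 1, by omega⟩
  rw [pow_add, mul_assoc] at h
  have h' := mul_left_cancel h
  have h2 := pow_sw (y := y) (sw_ne (by simp) hy) k
  rw [← h'] at h2
  exact sw_ne (by simp) hx h2

theorem free_disj' {c : Bool} {x y : F2} (hx : x ∈ startsWith ((0 : Fin 2), c))
    (hy : y ∈ startsWith ((0 : Fin 2), c)) {i j : ℕ} (hij : i ≠ j) :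
    (of (1 : Fin 2)) ^ i * x ≠ (of (1 : Fin 2)) ^ j * y := by
  rcases lt_or_gt_of_ne hij with h | h
  · exact free_disj hx hy h
  · exact (free_disj hy hx h).symm

/-- equivariant map to the free group -/
theorem exists_w {G : Type} [Group G] (φ : F2 →* G) (hφ : Function.Injective φ) :
    ∃ w : G → F2, ∀ g x, w (φ g * x) = g * w x := by
  classical
  let r : G → G := fun x => Quotient.out (Quotient.mk (QuotientGroup.rightRel φ.range) x)
  have hr : ∀ x, ∃ g, φ g = x * (r x)⁻¹ := by
    intro x
    have h1 : (QuotientGroup.rightRel φ.range) (r x) x := Quotient.exact (Quotient.out_eq _)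
    exact QuotientGroup.rightRel_apply.1 h1
  have hinv : ∀ g x, r (φ g * x) = r x := by
    intro g x
    have : (Quotient.mk (QuotientGroup.rightRel φ.range) (φ g * x)) =
        Quotient.mk (QuotientGroup.rightRel φ.range) x := by
      apply Quotient.sound
      show (QuotientGroup.rightRel φ.range) (φ g * x) x
      rw [QuotientGroup.rightRel_apply]
      refine ⟨g⁻¹, ?_⟩
      rw [_root_.map_inv, mul_inv_rev]
      group
    show Quotient.out _ = Quotient.out _
    rw [this]
  choose w hw using hr
  refine ⟨w, fun g x => hφ ?_⟩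
  rw [hw, _root_.map_mul, hw, hinv, mul_assoc]

end T4

open T4 FreeGroup in
theorem task4 : Task4 := by
  intro G _ φ hφ
  obtain ⟨w, hw⟩ := exists_w φ hφ
  refine ⟨φ (of 0), φ (of 1), {x | w x ∈ startsWith ((0 : Fin 2), false)},
    {x | w x ∈ startsWith ((0 : Fin 2), true)}, ?_, ?_, ?_, ?_, ?_⟩
  · intro x hx
    show w (φ (of 0) * x) ∈ startsWith ((0 : Fin 2), true)
    rw [hw]
    exact startsWith_mk_mul (w := ((0 : Fin 2), true)) _ (by simpa using hx)
  · intro x hx
    show w ((φ (of 0))⁻¹ * x) ∈ startsWith ((0 : Fin 2), false)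
    rw [← _root_.map_inv, hw]
    have := startsWith_mk_mul (w := ((0 : Fin 2), false)) (w x) (by simpa using hx)
    exact this
  · intro i j hij x hx y hy h
    apply free_disj' (x := w x) (y := w y) hx hy hij
    rw [← hw, ← hw, _root_.map_pow, _root_.map_pow, h]
  · intro i j hij x hx y hy h
    apply free_disj' (x := w x) (y := w y) hx hy hij
    rw [← hw, ← hw, _root_.map_pow, _root_.map_pow, h]
  · by_cases h : w 1 ∈ startsWith ((0 : Fin 2), true)
    · -- w 1 starts with a, then b * w 1 starts with b, a⁻¹ b w 1 starts with a⁻¹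
      refine ⟨φ ((of 0)⁻¹ * of 1) * 1, ?_⟩
      show w _ ∈ startsWith ((0 : Fin 2), false)
      rw [hw, mul_assoc]
      have h1 : of (1 : Fin 2) * w 1 ∈ startsWith ((1 : Fin 2), true) := by
        have := pow_sw (y := w 1) (sw_ne (by simp) h) 0
        simpa using this
      exact startsWith_mk_mul (w := ((0 : Fin 2), false)) _
        (by simpa using sw_ne (w' := ((0 : Fin 2), true)) (by simp) h1)
    · refine ⟨φ ((of 0)⁻¹) * 1, ?_⟩
      show w _ ∈ startsWith ((0 : Fin 2), false)
      rw [hw]
      exact startsWith_mk_mul (w := ((0 : Fin 2), false)) _ (by simpa using h)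

end H611CV
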