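import Pool.Agent.H611CV.Stmts

/-! Task 6 of project H611-CV (helper444). -/

set_option autoImplicit false

open scoped ENNReal

namespace H611CV.T6

open Classical in
lemma conv_sum {G : Type} [Group G] (c : ℝ≥0∞) (J N : ℕ) (kk : G → ℝ≥0∞) (g : ℕ → ℕ → G)
    (ξ : G → ℝ≥0∞) (x : G)
    (hk : ∀ y, kk (x * y⁻¹) = c * ∑ i ∈ Finset.range J, ∑ n ∈ Finset.range N,
      if y = g i n then (1 : ℝ≥0∞) else 0) :
    conv kk ξ x = c * ∑ i ∈ Finset.range J, ∑ n ∈ Finset.range N, ξ (g i n) := by
  unfold conv
  have h1 : ∀ y, kk (x * y⁻¹) * ξ y = c * ∑ i ∈ Finset.range J, ∑ n ∈ Finset.range N,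
      (if y = g i n then ξ y else 0) := by
    intro y
    rw [hk y, mul_assoc, Finset.sum_mul]
    congr 1
    refine Finset.sum_congr rfl fun i _ => ?_
    rw [Finset.sum_mul]
    refine Finset.sum_congr rfl fun n _ => ?_
    split_ifs <;> simp
  simp_rw [h1]
  rw [ENNReal.tsum_mul_left, Summable.tsum_finsetSum (fun _ _ => ENNReal.summable)]
  congr 1
  refine Finset.sum_congr rfl fun i _ => ?_
  rw [Summable.tsum_finsetSum (fun _ _ => ENNReal.summable)]
  refine Finset.sum_congr rfl fun n _ => ?_
  rw [tsum_ite_eq]

theorem task6 : Task6 := by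
  intro G _ s t J N ξ
  classical
  constructor
  · funext x
    unfold opF
    apply conv_sum
    intro y
    unfold ker
    congr 1
    refine Finset.sum_congr rfl fun i _ => Finset.sum_congr rfl fun n _ => ?_
    congr 1
    apply propext
    constructor
    · intro h
      rw [← h]
      group
    · intro h
      rw [h]
      group
  · funext x
    unfold opG
    apply conv_sum
    intro y
    unfold ker
    congr 1
    refine Finset.sum_congr rfl fun i _ => Finset.sum_congr rfl fun n _ => ?_
    congr 1
    apply propext
    constructor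
    · intro h
      rw [← h]
      group
    · intro h
      rw [h]
      group

end H611CV.T6
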