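import Pool.Agent.H611CV.Stmts

/-! Task 1 (helper798): upper bound for `opF` on `ℓ^p`. -/

set_option autoImplicit false

open scoped ENNReal
open Finset

namespace H611CV

namespace T1H798

lemma jensen (p : ℝ) (hp : 1 ≤ p) (M : ℕ) (hM : 0 < M) (a : ℕ → ℝ≥0∞) :
    ((M : ℝ≥0∞)⁻¹ * ∑ i ∈ range M, a i) ^ p ≤ (M : ℝ≥0∞)⁻¹ * ∑ i ∈ range M, a i ^ p := by
  have hw : ∑ _i ∈ range M, (M : ℝ≥0∞)⁻¹ = 1 := by
    rw [Finset.sum_const, card_range, nsmul_eq_mul]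
    exact ENNReal.mul_inv_cancel (by exact_mod_cast hM.ne') (ENNReal.natCast_ne_top M)
  have h := ENNReal.rpow_arith_mean_le_arith_mean_rpow (range M) (fun _ => (M : ℝ≥0∞)⁻¹) a hw hp
  rwa [← Finset.mul_sum, ← Finset.mul_sum] at h

lemma minkowski {G : Type} (p : ℝ) (hp : 1 ≤ p) (f g : G → ℝ≥0∞) :
    (∑' x, (f x + g x) ^ p) ^ (1 / p) ≤ (∑' x, f x ^ p) ^ (1 / p) + (∑' x, g x ^ p) ^ (1 / p) := by
  letI : MeasurableSpace G := ⊤
  have h := ENNReal.lintegral_Lp_add_le (μ := MeasureTheory.Measure.count) (f := f) (g := g)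
    (measurable_from_top.aemeasurable) (measurable_from_top.aemeasurable) hp
  rw [MeasureTheory.lintegral_count' measurable_from_top,
    MeasureTheory.lintegral_count' measurable_from_top,
    MeasureTheory.lintegral_count' measurable_from_top] at h
  exact h

lemma one_term (p : ℝ) (hp : 0 < p) (s : Finset ℕ) (a : ℕ → ℝ≥0∞)
    (h : ∀ i ∈ s, ∀ j ∈ s, a i ≠ 0 → a j ≠ 0 → i = j) :
    (∑ i ∈ s, a i) ^ p ≤ ∑ i ∈ s, a i ^ p := by
  by_cases h0 : ∃ i ∈ s, a i ≠ 0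
  · obtain ⟨i, hi, hi0⟩ := h0
    rw [Finset.sum_eq_single i]
    · exact Finset.single_le_sum (f := fun i => a i ^ p) (fun _ _ => zero_le) hi
    · intro j hj hji
      by_contra hj0
      exact hji (h j hj i hi hj0 hi0)
    · intro hi'
      exact absurd hi hi'
  · push Not at h0
    rw [Finset.sum_eq_zero h0, ENNReal.zero_rpow_of_pos hp]
    exact zero_le

lemma one_ind (s : Finset ℕ) (P : ℕ → Prop) [DecidablePred P] (c : ℝ≥0∞)
    (h : ∀ i ∈ s, ∀ j ∈ s, P i → P j → i = j) : ∑ i ∈ s, (if P i then c else 0) ≤ c := by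
  by_cases h0 : ∃ i ∈ s, P i
  · obtain ⟨i, hi, hi0⟩ := h0
    rw [Finset.sum_eq_single i]
    · rw [if_pos hi0]
    · intro j hj hji
      rw [if_neg]
      intro hj0
      exact hji (h j hj i hi hj0 hi0)
    · intro hi'
      exact absurd hi hi'
  · push Not at h0
    rw [Finset.sum_eq_zero (fun i hi => if_neg (h0 i hi))]
    exact zero_le

lemma reindex {G : Type} [Group G] (g : G) (φ : G → ℝ≥0∞) : ∑' x, φ (g * x) = ∑' x, φ x :=
  (Equiv.mulLeft g).tsum_eq φ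

lemma tsum_fin {G : Type} (s : Finset ℕ) (f : ℕ → G → ℝ≥0∞) :
    ∑' x, ∑ i ∈ s, f i x = ∑ i ∈ s, ∑' x, f i x :=
  Summable.tsum_finsetSum fun _ _ => ENNReal.summable

/-- the average of `ξ` over the translates by powers of `t` -/
noncomputable def eta {G : Type} [Group G] (t : G) (N : ℕ) (ξ : G → ℝ≥0∞) (y : G) : ℝ≥0∞ :=
  (N : ℝ≥0∞)⁻¹ * ∑ n ∈ range N, ξ ((t ^ (n + 1))⁻¹ * y)

lemma opF_eq {G : Type} [Group G] (s t : G) (J N : ℕ) (ξ : G → ℝ≥0∞) (x : G) :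
    opF s t J N ξ x = ∑ i ∈ range J, eta t N ξ (s⁻¹ * ((t ^ (i + 1))⁻¹ * x)) := by
  unfold opF eta
  rw [Finset.mul_sum]
  refine Finset.sum_congr rfl fun i _ => ?_
  congr 1
  refine Finset.sum_congr rfl fun n _ => ?_
  congr 1
  rw [mul_inv_rev, mul_inv_rev, mul_assoc, mul_assoc]

lemma eta_pow {G : Type} [Group G] (t : G) (N : ℕ) (hN : 0 < N) (p : ℝ) (hp : 1 ≤ p)
    (ξ : G → ℝ≥0∞) (y : G) :
    eta t N ξ y ^ p ≤ (N : ℝ≥0∞)⁻¹ * ∑ n ∈ range N, ξ ((t ^ (n + 1))⁻¹ * y) ^ p :=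
  jensen p hp N hN (fun n => ξ ((t ^ (n + 1))⁻¹ * y))

lemma S_eta {G : Type} [Group G] (t : G) (N : ℕ) (hN : 0 < N) (p : ℝ) (hp : 1 ≤ p)
    (ξ : G → ℝ≥0∞) : S p (eta t N ξ) ≤ S p ξ := by
  unfold S
  calc ∑' y, eta t N ξ y ^ p
      ≤ ∑' y, (N : ℝ≥0∞)⁻¹ * ∑ n ∈ range N, ξ ((t ^ (n + 1))⁻¹ * y) ^ p :=
        ENNReal.tsum_le_tsum fun y => eta_pow t N hN p hp ξ y
    _ = (N : ℝ≥0∞)⁻¹ * ∑ n ∈ range N, ∑' y, ξ ((t ^ (n + 1))⁻¹ * y) ^ p := by
        rw [ENNReal.tsum_mul_left, tsum_fin]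
    _ = (N : ℝ≥0∞)⁻¹ * ∑ _n ∈ range N, ∑' y, ξ y ^ p := by
        congr 1
        refine Finset.sum_congr rfl fun n _ => ?_
        exact reindex ((t ^ (n + 1))⁻¹) (fun y => ξ y ^ p)
    _ = ∑' y, ξ y ^ p := by
        rw [Finset.sum_const, card_range, nsmul_eq_mul, ← mul_assoc,
          ENNReal.inv_mul_cancel (by exact_mod_cast hN.ne') (ENNReal.natCast_ne_top N), one_mul]

open Classical in
lemma S_eta_D {G : Type} [Group G] (t : G) (D : Set G)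
    (htD : ∀ i j : ℕ, i ≠ j → ∀ x ∈ D, ∀ y ∈ D, t ^ i * x ≠ t ^ j * y)
    (N : ℕ) (hN : 0 < N) (p : ℝ) (hp : 1 ≤ p) (ξ : G → ℝ≥0∞) :
    ∑' y, (if y ∈ D then eta t N ξ y else 0) ^ p ≤ (N : ℝ≥0∞)⁻¹ * S p ξ := by
  have hp0 : 0 < p := by linarith
  unfold S
  calc ∑' y, (if y ∈ D then eta t N ξ y else 0) ^ p
      ≤ ∑' y, (N : ℝ≥0∞)⁻¹ * ∑ n ∈ range N,
        (if y ∈ D then ξ ((t ^ (n + 1))⁻¹ * y) ^ p else 0) := by
        refine ENNReal.tsum_le_tsum fun y => ?_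
        by_cases hy : y ∈ D
        · simp only [if_pos hy]
          exact eta_pow t N hN p hp ξ y
        · simp only [if_neg hy, ENNReal.zero_rpow_of_pos hp0]
          exact zero_le
    _ = (N : ℝ≥0∞)⁻¹ * ∑ n ∈ range N, ∑' y,
        (if y ∈ D then ξ ((t ^ (n + 1))⁻¹ * y) ^ p else 0) := by
        rw [ENNReal.tsum_mul_left, tsum_fin]
    _ = (N : ℝ≥0∞)⁻¹ * ∑ n ∈ range N, ∑' x,
        (if t ^ (n + 1) * x ∈ D then ξ x ^ p else 0) := by
        congr 1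
        refine Finset.sum_congr rfl fun n _ => ?_
        rw [← reindex (t ^ (n + 1))]
        refine tsum_congr fun x => ?_
        rw [inv_mul_cancel_left]
    _ = (N : ℝ≥0∞)⁻¹ * ∑' x, ∑ n ∈ range N,
        (if t ^ (n + 1) * x ∈ D then ξ x ^ p else 0) := by
        rw [tsum_fin]
    _ ≤ (N : ℝ≥0∞)⁻¹ * ∑' x, ξ x ^ p := by
        refine mul_le_mul_right (ENNReal.tsum_le_tsum fun x => ?_) _
        refine one_ind _ _ _ fun n _ m _ hn hm => ?_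
        by_contra hnm
        apply htD (m + 1) (n + 1) (by omega) _ hn _ hm
        rw [← mul_assoc, ← mul_assoc, ← pow_add, ← pow_add, add_comm (m + 1)]

end T1H798

open T1H798

open Classical in
theorem task1 : Task1 := by
  intro G _ s t D E hPP p hp J N hJ hN ξ
  have hp0 : 0 < p := by linarith
  have hp1 : 1 ≤ p := hp.le
  set η : G → ℝ≥0∞ := eta t N ξ with hη
  set η1 : G → ℝ≥0∞ := fun y => if y ∈ D then 0 else η y with hη1
  set η2 : G → ℝ≥0∞ := fun y => if y ∈ D then η y else 0 with hη2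
  set F1 : G → ℝ≥0∞ := fun x => ∑ i ∈ range J, η1 (s⁻¹ * ((t ^ (i + 1))⁻¹ * x)) with hF1
  set F2 : G → ℝ≥0∞ := fun x => ∑ i ∈ range J, η2 (s⁻¹ * ((t ^ (i + 1))⁻¹ * x)) with hF2
  have hsplit : ∀ x, opF s t J N ξ x = F1 x + F2 x := by
    intro x
    rw [opF_eq, hF1, hF2]
    simp only
    rw [← Finset.sum_add_distrib]
    refine Finset.sum_congr rfl fun i _ => ?_
    simp only [hη1, hη2]
    split_ifs
    · rw [zero_add]
    · rw [add_zero]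
  have hJ0 : (J : ℝ≥0∞) ≠ 0 := by exact_mod_cast hJ.ne'
  have hJt : (J : ℝ≥0∞) ≠ ⊤ := ENNReal.natCast_ne_top J
  -- translation invariance
  have htr : ∀ (φ : G → ℝ≥0∞) (i : ℕ), ∑' x, φ (s⁻¹ * ((t ^ (i + 1))⁻¹ * x)) = ∑' x, φ x := by
    intro φ i
    rw [reindex ((t ^ (i + 1))⁻¹) (fun x => φ (s⁻¹ * x)), reindex s⁻¹ φ]
  -- bound for `F1`
  have h1 : S p F1 ≤ (J : ℝ≥0∞) * S p ξ := by
    calc S p F1 ≤ ∑' x, ∑ i ∈ range J, η1 (s⁻¹ * ((t ^ (i + 1))⁻¹ * x)) ^ p := by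
          refine ENNReal.tsum_le_tsum fun x => ?_
          refine one_term p hp0 _ _ fun i _ j _ hi hj => ?_
          have key : ∀ i : ℕ, η1 (s⁻¹ * ((t ^ (i + 1))⁻¹ * x)) ≠ 0 →
              (t ^ (i + 1))⁻¹ * x ∈ E := by
            intro i hi
            have h2 : s⁻¹ * ((t ^ (i + 1))⁻¹ * x) ∉ D := by
              intro h3
              apply hi
              simp only [hη1, if_pos h3]
            have h4 := hPP.sD _ h2
            rwa [mul_inv_cancel_left] at h4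
          by_contra hij
          apply hPP.tE (i + 1) (j + 1) (by omega) _ (key i hi) _ (key j hj)
          rw [mul_inv_cancel_left, mul_inv_cancel_left]
      _ = ∑ i ∈ range J, ∑' x, η1 (s⁻¹ * ((t ^ (i + 1))⁻¹ * x)) ^ p := tsum_fin _ _
      _ = ∑ _i ∈ range J, ∑' x, η1 x ^ p := by
          refine Finset.sum_congr rfl fun i _ => ?_
          exact htr (fun y => η1 y ^ p) i
      _ ≤ ∑ _i ∈ range J, S p ξ := by
          refine Finset.sum_le_sum fun i _ => ?_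
          refine le_trans (ENNReal.tsum_le_tsum fun x => ?_) (S_eta t N hN p hp1 ξ)
          refine ENNReal.rpow_le_rpow ?_ hp0.le
          simp only [hη1]
          split_ifs
          · exact zero_le
          · exact le_rfl
      _ = (J : ℝ≥0∞) * S p ξ := by
          rw [Finset.sum_const, card_range, nsmul_eq_mul]
  -- bound for `F2`
  have h2 : S p F2 ≤ (J : ℝ≥0∞) ^ p * ((N : ℝ≥0∞)⁻¹ * S p ξ) := by
    calc S p F2 ≤ ∑' x, (J : ℝ≥0∞) ^ p * ((J : ℝ≥0∞)⁻¹ *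
            ∑ i ∈ range J, η2 (s⁻¹ * ((t ^ (i + 1))⁻¹ * x)) ^ p) := by
          refine ENNReal.tsum_le_tsum fun x => ?_
          have e : F2 x = (J : ℝ≥0∞) * ((J : ℝ≥0∞)⁻¹ *
              ∑ i ∈ range J, η2 (s⁻¹ * ((t ^ (i + 1))⁻¹ * x))) := by
            rw [← mul_assoc, ENNReal.mul_inv_cancel hJ0 hJt, one_mul]
          rw [e, ENNReal.mul_rpow_of_nonneg _ _ hp0.le]
          exact mul_le_mul_right (jensen p hp1 J hJ _) _
      _ = (J : ℝ≥0∞) ^ p * ((J : ℝ≥0∞)⁻¹ *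
            ∑ i ∈ range J, ∑' x, η2 (s⁻¹ * ((t ^ (i + 1))⁻¹ * x)) ^ p) := by
          rw [ENNReal.tsum_mul_left, ENNReal.tsum_mul_left, tsum_fin]
      _ = (J : ℝ≥0∞) ^ p * ((J : ℝ≥0∞)⁻¹ * ∑ _i ∈ range J, ∑' x, η2 x ^ p) := by
          congr 2
          refine Finset.sum_congr rfl fun i _ => ?_
          exact htr (fun y => η2 y ^ p) i
      _ = (J : ℝ≥0∞) ^ p * ∑' x, η2 x ^ p := by
          rw [Finset.sum_const, card_range, nsmul_eq_mul, ← mul_assoc ((J : ℝ≥0∞)⁻¹),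
            ENNReal.inv_mul_cancel hJ0 hJt, one_mul]
      _ ≤ (J : ℝ≥0∞) ^ p * ((N : ℝ≥0∞)⁻¹ * S p ξ) :=
          mul_le_mul_right (S_eta_D t D hPP.tD N hN p hp1 ξ) _
  -- Minkowski
  have h3 : S p (opF s t J N ξ) ^ (1 / p) ≤ S p F1 ^ (1 / p) + S p F2 ^ (1 / p) := by
    have e : S p (opF s t J N ξ) = ∑' x, (F1 x + F2 x) ^ p :=
      tsum_congr fun x => by rw [hsplit x]
    rw [e]
    exact minkowski p hp1 F1 F2
  have hq : 0 ≤ 1 / p := by positivity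
  have h4 : S p (opF s t J N ξ) ^ (1 / p) ≤
      ((J : ℝ≥0∞) ^ (1 / p) + (J : ℝ≥0∞) * ((N : ℝ≥0∞)⁻¹) ^ (1 / p)) * S p ξ ^ (1 / p) := by
    calc S p (opF s t J N ξ) ^ (1 / p) ≤ S p F1 ^ (1 / p) + S p F2 ^ (1 / p) := h3
      _ ≤ ((J : ℝ≥0∞) * S p ξ) ^ (1 / p) +
          ((J : ℝ≥0∞) ^ p * ((N : ℝ≥0∞)⁻¹ * S p ξ)) ^ (1 / p) :=
          add_le_add (ENNReal.rpow_le_rpow h1 hq) (ENNReal.rpow_le_rpow h2 hq)
      _ = _ := by
          rw [ENNReal.mul_rpow_of_nonneg _ _ hq, ENNReal.mul_rpow_of_nonneg _ _ hq,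
            ENNReal.mul_rpow_of_nonneg _ _ hq, ← ENNReal.rpow_mul, mul_one_div_cancel hp0.ne',
            ENNReal.rpow_one]
          ring
  have h5 := ENNReal.rpow_le_rpow h4 hp0.le
  rw [← ENNReal.rpow_mul, one_div_mul_cancel hp0.ne', ENNReal.rpow_one,
    ENNReal.mul_rpow_of_nonneg _ _ hp0.le, ← ENNReal.rpow_mul, one_div_mul_cancel hp0.ne',
    ENNReal.rpow_one] at h5
  exact h5

end H611CV
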