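import Pool.Agent.H611CV.Stmts

/-! Task 2 of the project H611-CV: upper bound for `opG` on `ℓ^p`. -/

set_option autoImplicit false

open scoped ENNReal

namespace H611CV.T2

open H611CV MeasureTheory

variable {G : Type}

theorem mink {p : ℝ} (hp : 1 ≤ p) (f g : G → ℝ≥0∞) :
    S p (fun x => f x + g x) ^ (1 / p) ≤ S p f ^ (1 / p) + S p g ^ (1 / p) := by
  let _ : MeasurableSpace G := ⊤
  have h := ENNReal.lintegral_Lp_add_le (μ := Measure.count) (f := f) (g := g)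
    measurable_from_top.aemeasurable measurable_from_top.aemeasurable hp
  rw [lintegral_count' measurable_from_top, lintegral_count' measurable_from_top,
    lintegral_count' measurable_from_top] at h
  exact h

theorem S_mono {p : ℝ} (hp : 0 ≤ p) {f g : G → ℝ≥0∞} (h : ∀ x, f x ≤ g x) : S p f ≤ S p g :=
  ENNReal.tsum_le_tsum (fun x => ENNReal.rpow_le_rpow (h x) hp)

variable [Group G]

theorem shift (a : G) (f : G → ℝ≥0∞) : ∑' x, f (a * x) = ∑' x, f x :=
  (Equiv.mulLeft a).tsum_eq f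

/-- average of the translates -/
noncomputable def avg (t : G) (N : ℕ) (u : G → ℝ≥0∞) (x : G) : ℝ≥0∞ :=
  (N : ℝ≥0∞)⁻¹ * ∑ n ∈ Finset.range N, u (t ^ (n + 1) * x)

theorem sum_avg (t : G) (N : ℕ) (p : ℝ) (u : G → ℝ≥0∞) :
    ∑' x, ∑ n ∈ Finset.range N, u (t ^ (n + 1) * x) ^ p = (N : ℝ≥0∞) * S p u := by
  rw [Summable.tsum_finsetSum (fun i _ => ENNReal.summable)]
  have : ∀ n ∈ Finset.range N, ∑' x, u (t ^ (n + 1) * x) ^ p = S p u := by
    intro n _
    exact shift (t ^ (n + 1)) (fun x => u x ^ p)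
  rw [Finset.sum_congr rfl this, Finset.sum_const, Finset.card_range, nsmul_eq_mul]

theorem natCast_facts {N : ℕ} (hN : 0 < N) : (N : ℝ≥0∞) ≠ 0 ∧ (N : ℝ≥0∞) ≠ ⊤ :=
  ⟨by exact_mod_cast hN.ne', ENNReal.natCast_ne_top N⟩

theorem S_avg_le {t : G} {N : ℕ} (hN : 0 < N) {p : ℝ} (hp : 1 < p) (u : G → ℝ≥0∞) :
    S p (avg t N u) ≤ S p u := by
  obtain ⟨h0, h1⟩ := natCast_facts hN
  have key : ∀ x, avg t N u x ^ p ≤
      ((N : ℝ≥0∞)⁻¹ ^ p * (N : ℝ≥0∞) ^ (p - 1)) * ∑ n ∈ Finset.range N, u (t ^ (n + 1) * x) ^ p := by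
    intro x
    unfold avg
    rw [ENNReal.mul_rpow_of_nonneg _ _ (by linarith), mul_assoc]
    have := ENNReal.rpow_sum_le_const_mul_sum_rpow (Finset.range N)
      (fun n => u (t ^ (n + 1) * x)) hp.le
    rw [Finset.card_range] at this
    exact mul_le_mul_right this _
  calc S p (avg t N u) ≤ ∑' x, ((N : ℝ≥0∞)⁻¹ ^ p * (N : ℝ≥0∞) ^ (p - 1)) *
        ∑ n ∈ Finset.range N, u (t ^ (n + 1) * x) ^ p := ENNReal.tsum_le_tsum key
    _ = ((N : ℝ≥0∞)⁻¹ ^ p * (N : ℝ≥0∞) ^ (p - 1)) * ((N : ℝ≥0∞) * S p u) := by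
        rw [ENNReal.tsum_mul_left, sum_avg]
    _ = S p u := by
        have e : (N : ℝ≥0∞) ^ (p - 1) * (N : ℝ≥0∞) = (N : ℝ≥0∞) ^ p := by
          conv_lhs => rw [← ENNReal.rpow_one (N : ℝ≥0∞), ← ENNReal.rpow_mul, one_mul]
          rw [← ENNReal.rpow_add _ _ h0 h1]
          congr 1
          ring
        rw [mul_assoc, ← mul_assoc ((N : ℝ≥0∞) ^ (p - 1)), e, ← mul_assoc,
          ← ENNReal.mul_rpow_of_nonneg _ _ (by linarith), ENNReal.inv_mul_cancel h0 h1,
          ENNReal.one_rpow, one_mul]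

theorem pow_sum_single {N : ℕ} {p : ℝ} (hp : 0 < p) (a : ℕ → ℝ≥0∞)
    (h : ∀ n < N, ∀ m < N, n ≠ m → a n = 0 ∨ a m = 0) :
    (∑ n ∈ Finset.range N, a n) ^ p = ∑ n ∈ Finset.range N, a n ^ p := by
  by_cases hex : ∃ n < N, a n ≠ 0
  · obtain ⟨n, hn, han⟩ := hex
    have hz : ∀ m ∈ Finset.range N, m ≠ n → a m = 0 := by
      intro m hm hmn
      rcases h n hn m (Finset.mem_range.1 hm) (Ne.symm hmn) with h1 | h1
      · exact absurd h1 han
      · exact h1
    rw [Finset.sum_eq_single n hz (fun h' => absurd (Finset.mem_range.2 hn) h'),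
      Finset.sum_eq_single n _ (fun h' => absurd (Finset.mem_range.2 hn) h')]
    intro m hm hmn
    rw [hz m hm hmn, ENNReal.zero_rpow_of_pos hp]
  · push Not at hex
    rw [Finset.sum_eq_zero (fun n hn => hex n (Finset.mem_range.1 hn)), ENNReal.zero_rpow_of_pos hp]
    symm
    apply Finset.sum_eq_zero
    intro n hn
    rw [hex n (Finset.mem_range.1 hn), ENNReal.zero_rpow_of_pos hp]

theorem inv_pow_mul {N : ℕ} (hN : 0 < N) {p : ℝ} :
    (N : ℝ≥0∞)⁻¹ ^ p * (N : ℝ≥0∞) = (N : ℝ≥0∞)⁻¹ ^ (p - 1) := by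
  obtain ⟨h0, h1⟩ := natCast_facts hN
  have e : (N : ℝ≥0∞)⁻¹ ^ p = (N : ℝ≥0∞)⁻¹ ^ (p - 1) * (N : ℝ≥0∞)⁻¹ := by
    conv_rhs => rw [← ENNReal.rpow_one (N : ℝ≥0∞)⁻¹, ← ENNReal.rpow_mul, one_mul]
    rw [← ENNReal.rpow_add _ _ (ENNReal.inv_ne_zero.2 h1) (ENNReal.inv_ne_top.2 h0)]
    congr 1
    ring
  rw [e, mul_assoc, ENNReal.inv_mul_cancel h0 h1, mul_one]

theorem S_avg_D {s t : G} {D E : Set G} (h : PP s t D E) {N : ℕ} (hN : 0 < N) {p : ℝ} (hp : 1 < p)
    (v : G → ℝ≥0∞) :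
    S p (avg t N (D.indicator v)) = (N : ℝ≥0∞)⁻¹ ^ (p - 1) * S p (D.indicator v) := by
  have key : ∀ x, avg t N (D.indicator v) x ^ p =
      (N : ℝ≥0∞)⁻¹ ^ p * ∑ n ∈ Finset.range N, (D.indicator v) (t ^ (n + 1) * x) ^ p := by
    intro x
    unfold avg
    rw [ENNReal.mul_rpow_of_nonneg _ _ (by linarith), pow_sum_single (by linarith)]
    intro n _ m _ hnm
    by_cases h1 : t ^ (n + 1) * x ∈ D
    · by_cases h2 : t ^ (m + 1) * x ∈ D
      · exfalso
        refine h.tD (m + 1) (n + 1) (by omega) _ h1 _ h2 ?_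
        rw [← mul_assoc, ← mul_assoc, ← pow_add, ← pow_add, add_comm]
      · right
        exact Set.indicator_of_notMem h2 v
    · left
      exact Set.indicator_of_notMem h1 v
  unfold S
  simp only [key]
  rw [ENNReal.tsum_mul_left, sum_avg, ← mul_assoc, inv_pow_mul hN]
  rfl

/-- sum of the translates -/
noncomputable def vv (s t : G) (J : ℕ) (ξ : G → ℝ≥0∞) (y : G) : ℝ≥0∞ :=
  ∑ i ∈ Finset.range J, ξ (t ^ (i + 1) * s * y)

theorem opG_eq (s t : G) (J N : ℕ) (ξ : G → ℝ≥0∞) (x : G) :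
    opG s t J N ξ x = avg t N (vv s t J ξ) x := by
  unfold opG avg vv
  rw [Finset.sum_comm]
  congr 1
  apply Finset.sum_congr rfl
  intro n _
  apply Finset.sum_congr rfl
  intro i _
  rw [mul_assoc (t ^ (i + 1) * s)]

theorem S_v_le {s t : G} {J : ℕ} (hJ : 0 < J) {p : ℝ} (hp : 1 < p) (ξ : G → ℝ≥0∞) :
    S p (vv s t J ξ) ≤ (J : ℝ≥0∞) ^ p * S p ξ := by
  obtain ⟨h0, h1⟩ := natCast_facts hJ
  have key : ∀ x, vv s t J ξ x ^ p ≤
      (J : ℝ≥0∞) ^ (p - 1) * ∑ i ∈ Finset.range J, ξ (t ^ (i + 1) * s * x) ^ p := by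
    intro x
    unfold vv
    have := ENNReal.rpow_sum_le_const_mul_sum_rpow (Finset.range J)
      (fun i => ξ (t ^ (i + 1) * s * x)) hp.le
    rw [Finset.card_range] at this
    exact this
  calc S p (vv s t J ξ) ≤ ∑' x, (J : ℝ≥0∞) ^ (p - 1) *
        ∑ i ∈ Finset.range J, ξ (t ^ (i + 1) * s * x) ^ p := ENNReal.tsum_le_tsum key
    _ = (J : ℝ≥0∞) ^ (p - 1) * ((J : ℝ≥0∞) * S p ξ) := by
        rw [ENNReal.tsum_mul_left, Summable.tsum_finsetSum (fun i _ => ENNReal.summable)]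
        congr 1
        have : ∀ n ∈ Finset.range J, ∑' x, ξ (t ^ (n + 1) * s * x) ^ p = S p ξ := by
          intro n _
          exact shift (t ^ (n + 1) * s) (fun x => ξ x ^ p)
        rw [Finset.sum_congr rfl this, Finset.sum_const, Finset.card_range, nsmul_eq_mul]
    _ = (J : ℝ≥0∞) ^ p * S p ξ := by
        rw [← mul_assoc]
        congr 1
        conv_lhs => rw [← ENNReal.rpow_one (J : ℝ≥0∞), ← ENNReal.rpow_mul, one_mul]
        rw [← ENNReal.rpow_add _ _ h0 h1]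
        congr 1
        ring

theorem S_u1_le {s t : G} {D E : Set G} (h : PP s t D E) {J : ℕ} {p : ℝ} (hp : 1 < p)
    (ξ : G → ℝ≥0∞) :
    S p (Dᶜ.indicator (vv s t J ξ)) ≤ (J : ℝ≥0∞) ^ (p - 1) * S p ξ := by
  have hp0 : 0 < p := by linarith
  have key : ∀ x, (Dᶜ.indicator (vv s t J ξ)) x ^ p ≤
      (J : ℝ≥0∞) ^ (p - 1) * ∑ i ∈ Finset.range J,
        Dᶜ.indicator (fun y => ξ (t ^ (i + 1) * s * y) ^ p) x := by
    intro x
    by_cases hx : x ∈ Dᶜ
    · rw [Set.indicator_of_mem hx]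
      have e : ∀ i ∈ Finset.range J, Dᶜ.indicator (fun y => ξ (t ^ (i + 1) * s * y) ^ p) x =
          ξ (t ^ (i + 1) * s * x) ^ p := fun i _ => Set.indicator_of_mem hx _
      rw [Finset.sum_congr rfl e]
      have := ENNReal.rpow_sum_le_const_mul_sum_rpow (Finset.range J)
        (fun i => ξ (t ^ (i + 1) * s * x)) hp.le
      rw [Finset.card_range] at this
      exact this
    · rw [Set.indicator_of_notMem hx, ENNReal.zero_rpow_of_pos hp0]
      exact zero_le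
  calc S p (Dᶜ.indicator (vv s t J ξ)) ≤ ∑' x, (J : ℝ≥0∞) ^ (p - 1) * ∑ i ∈ Finset.range J,
        Dᶜ.indicator (fun y => ξ (t ^ (i + 1) * s * y) ^ p) x := ENNReal.tsum_le_tsum key
    _ ≤ (J : ℝ≥0∞) ^ (p - 1) * S p ξ := by
        rw [ENNReal.tsum_mul_left, Summable.tsum_finsetSum (fun i _ => ENNReal.summable)]
        refine mul_le_mul_right ?_ _
        set f : (Fin J × (Dᶜ : Set G)) → G := fun q => t ^ ((q.1 : ℕ) + 1) * s * (q.2 : G) with hf
        have hinj : Function.Injective f := by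
          rintro ⟨i, y, hy⟩ ⟨j, z, hz⟩ hij
          simp only [hf] at hij
          rw [mul_assoc, mul_assoc] at hij
          by_cases hne : i = j
          · subst hne
            have h1 : y = z := mul_left_cancel (mul_left_cancel hij)
            subst h1
            rfl
          · exfalso
            have hne' : (i : ℕ) + 1 ≠ (j : ℕ) + 1 := by
              intro e
              apply hne
              apply Fin.ext
              omega
            exact h.tE _ _ hne' _ (h.sD y hy) _ (h.sD z hz) hij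
        have h1 := ENNReal.tsum_comp_le_tsum_of_injective hinj (fun x => ξ x ^ p)
        have h2 : ∑' x : Fin J × (Dᶜ : Set G), ξ (f x) ^ p =
            ∑' (i : Fin J) (y : (Dᶜ : Set G)), ξ (t ^ ((i : ℕ) + 1) * s * (y : G)) ^ p :=
          ENNReal.tsum_prod (f := fun (i : Fin J) (y : (Dᶜ : Set G)) =>
            ξ (t ^ ((i : ℕ) + 1) * s * (y : G)) ^ p)
        rw [h2, tsum_fintype] at h1
        rw [← Fin.sum_univ_eq_sum_range (fun i => ∑' b, Dᶜ.indicator
          (fun y => ξ (t ^ (i + 1) * s * y) ^ p) b) J]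
        refine le_trans (le_of_eq ?_) h1
        apply Finset.sum_congr rfl
        intro i _
        exact (tsum_subtype Dᶜ (fun y => ξ (t ^ ((i : ℕ) + 1) * s * y) ^ p)).symm

omit [Group G] in
theorem S_indicator_le {p : ℝ} (hp : 0 ≤ p) (D : Set G) (v : G → ℝ≥0∞) :
    S p (D.indicator v) ≤ S p v :=
  S_mono hp (fun x => Set.indicator_le_self' (fun _ _ => zero_le) x)

theorem main : Task2 := by
  intro G _ s t D E h p hp J N hJ hN ξ
  have hp0 : 0 < p := by linarith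
  have hpi : 0 ≤ 1 / p := by positivity
  obtain ⟨j0, j1⟩ := natCast_facts hJ
  set v := vv s t J ξ with hv
  set X := S p ξ with hX
  have hsplit : opG s t J N ξ = fun x => avg t N (Dᶜ.indicator v) x + avg t N (D.indicator v) x := by
    funext x
    rw [opG_eq]
    unfold avg
    rw [← mul_add, ← Finset.sum_add_distrib]
    congr 1
    apply Finset.sum_congr rfl
    intro n _
    have := congrFun (Set.indicator_compl_add_self D v) (t ^ (n + 1) * x)
    exact this.symm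
  have h1 : S p (avg t N (Dᶜ.indicator v)) ≤ (J : ℝ≥0∞) ^ (p - 1) * X :=
    (S_avg_le hN hp _).trans (S_u1_le h hp ξ)
  have h2 : S p (avg t N (D.indicator v)) ≤ (N : ℝ≥0∞)⁻¹ ^ (p - 1) * ((J : ℝ≥0∞) ^ p * X) := by
    rw [S_avg_D h hN hp]
    exact mul_le_mul_right ((S_indicator_le hp0.le D v).trans (S_v_le hJ hp ξ)) _
  have h3 : S p (opG s t J N ξ) ^ (1 / p) ≤
      ((J : ℝ≥0∞) ^ (1 - 1 / p) + (J : ℝ≥0∞) * ((N : ℝ≥0∞)⁻¹) ^ (1 - 1 / p)) * X ^ (1 / p) := by
    rw [hsplit]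
    refine (mink hp.le _ _).trans ?_
    have g1 := ENNReal.rpow_le_rpow h1 hpi
    have g2 := ENNReal.rpow_le_rpow h2 hpi
    rw [ENNReal.mul_rpow_of_nonneg _ _ hpi, ← ENNReal.rpow_mul] at g1
    rw [ENNReal.mul_rpow_of_nonneg _ _ hpi, ENNReal.mul_rpow_of_nonneg _ _ hpi, ← ENNReal.rpow_mul,
      ← ENNReal.rpow_mul] at g2
    have e1 : (p - 1) * (1 / p) = 1 - 1 / p := by field_simp
    have e2 : p * (1 / p) = 1 := by field_simp
    rw [e1] at g1
    rw [e1, e2, ENNReal.rpow_one] at g2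
    refine (add_le_add g1 g2).trans (le_of_eq ?_)
    ring
  have h4 := ENNReal.rpow_le_rpow h3 hp0.le
  have e3 : 1 / p * p = 1 := by field_simp
  rw [← ENNReal.rpow_mul, e3, ENNReal.rpow_one, ENNReal.mul_rpow_of_nonneg _ _ hp0.le,
    ← ENNReal.rpow_mul, e3, ENNReal.rpow_one] at h4
  exact h4

end H611CV.T2

namespace H611CV

theorem task2 : Task2 := T2.main

end H611CV
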