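import Pool.Agent.H611CV.Stmts

set_option autoImplicit false

namespace H611CV

namespace PPF

abbrev F := FreeGroup (Fin 2)

def a : F := FreeGroup.mk [((0 : Fin 2), true)]
def b : F := FreeGroup.mk [((1 : Fin 2), true)]

theorem a_inv : a⁻¹ = FreeGroup.mk [((0 : Fin 2), false)] := by
  simp [a, FreeGroup.inv_mk, FreeGroup.invRev]

theorem not_mem_of_mem {w w' : Fin 2 × Bool} (h : w ≠ w') {g : F} (hg : g ∈ FreeGroup.startsWith w) :
    g ∉ FreeGroup.startsWith w' :=
  (FreeGroup.startsWith.disjoint_iff_ne.mpr h).notMem_of_mem_left hg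

theorem pow_mem {c : Bool} {g : F} (hg : g ∈ FreeGroup.startsWith ((0 : Fin 2), c)) (k : ℕ) :
    b ^ (k + 1) * g ∈ FreeGroup.startsWith ((1 : Fin 2), true) := by
  induction k with
  | zero =>
    rw [zero_add, pow_one]
    exact FreeGroup.startsWith_mk_mul g (not_mem_of_mem (by simp) hg)
  | succ k ih =>
    rw [pow_succ', mul_assoc]
    exact FreeGroup.startsWith_mk_mul _ (not_mem_of_mem (by simp) ih)

theorem disj_lt {c : Bool} {g g' : F} (hg : g ∈ FreeGroup.startsWith ((0 : Fin 2), c))
    (hg' : g' ∈ FreeGroup.startsWith ((0 : Fin 2), c)) {i j : ℕ} (hij : i < j) :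
    b ^ i * g ≠ b ^ j * g' := by
  intro h
  obtain ⟨k, rfl⟩ : ∃ k, j = i + (k + 1) := ⟨j - i - 1, by omega⟩
  rw [pow_add, mul_assoc] at h
  have h2 := mul_left_cancel h
  have h3 := pow_mem hg' k
  rw [← h2] at h3
  exact not_mem_of_mem (by simp) hg h3

theorem disj {c : Bool} {g g' : F} (hg : g ∈ FreeGroup.startsWith ((0 : Fin 2), c))
    (hg' : g' ∈ FreeGroup.startsWith ((0 : Fin 2), c)) {i j : ℕ} (hij : i ≠ j) :
    b ^ i * g ≠ b ^ j * g' := by
  rcases lt_or_gt_of_ne hij with h | h
  · exact disj_lt hg hg' h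
  · exact (disj_lt hg' hg h).symm

end PPF

open PPF in
theorem task4 : Task4 := by
  intro G _ φ hφ
  -- equivariant map to the free group
  obtain ⟨w, hw⟩ : ∃ w : G → F, ∀ (g : F) (x : G), w (φ g * x) = g * w x := by
    let r : G → G := fun x => Quotient.out (Quotient.mk (QuotientGroup.rightRel φ.range) x)
    have hr1 : ∀ x : G, ∃ g : F, φ g = x * (r x)⁻¹ := by
      intro x
      have h : (QuotientGroup.rightRel φ.range) (r x) x :=
        Quotient.mk_out (s := QuotientGroup.rightRel φ.range) x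
      rw [QuotientGroup.rightRel_apply] at h
      obtain ⟨g, hg⟩ := h
      exact ⟨g, hg⟩
    have hr2 : ∀ (g : F) (x : G), r (φ g * x) = r x := by
      intro g x
      have : (Quotient.mk (QuotientGroup.rightRel φ.range) (φ g * x)) =
          Quotient.mk (QuotientGroup.rightRel φ.range) x := by
        apply Quotient.sound
        show (QuotientGroup.rightRel φ.range) (φ g * x) x
        rw [QuotientGroup.rightRel_apply]
        exact ⟨g⁻¹, by simp⟩
      simp only [r, this]
    choose w hw using hr1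
    refine ⟨w, fun g x => hφ ?_⟩
    rw [hw, map_mul, hw, hr2, mul_assoc]
  refine ⟨φ a, φ b, {x | w x ∈ FreeGroup.startsWith ((0 : Fin 2), false)},
    {x | w x ∈ FreeGroup.startsWith ((0 : Fin 2), true)}, ?_⟩
  have hp : ∀ (i : ℕ) (x : G), w (φ b ^ i * x) = b ^ i * w x := by
    intro i x
    rw [← map_pow, hw]
  constructor
  · intro x hx
    simp only [Set.mem_ofPred_eq] at hx ⊢
    rw [hw]
    exact FreeGroup.startsWith_mk_mul _ hx
  · intro x hx
    simp only [Set.mem_ofPred_eq] at hx ⊢
    rw [← map_inv, hw, a_inv]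
    exact FreeGroup.startsWith_mk_mul _ hx
  · intro i j hij x hx y hy h
    simp only [Set.mem_ofPred_eq] at hx hy
    have h2 := congrArg w h
    rw [hp, hp] at h2
    exact disj hx hy hij h2
  · intro i j hij x hx y hy h
    simp only [Set.mem_ofPred_eq] at hx hy
    have h2 := congrArg w h
    rw [hp, hp] at h2
    exact disj hx hy hij h2
  · refine ⟨φ (FreeGroup.mk [((0 : Fin 2), false)] * (w 1)⁻¹), ?_⟩
    simp only [Set.mem_ofPred_eq]
    have := hw (FreeGroup.mk [((0 : Fin 2), false)] * (w 1)⁻¹) 1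
    rw [mul_one] at this
    rw [this, inv_mul_cancel_right]
    simp [FreeGroup.startsWith]

end H611CV
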