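import Pool.Agent.H611CV.Stmts

set_option autoImplicit false
set_option maxHeartbeats 1000000

open scoped ENNReal

namespace H611CV

section T5

variable {G : Type} [Group G]

lemma T5_ind_sum (p : ℝ) (hp : 1 < p) (A : Finset G) : S p (ind A) = A.card := by
  classical
  unfold S
  rw [tsum_eq_sum (s := A)]
  · rw [Finset.sum_congr rfl (g := fun _ => (1 : ℝ≥0∞))]
    · simp
    · intro x hx
      simp [ind, hx]
  · intro x hx
    have h0 : ind A x = 0 := by simp [ind, hx]
    rw [h0]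
    exact ENNReal.zero_rpow_of_pos (by linarith)

lemma T5_conv_ind (k : G → ℝ≥0∞) (A : Finset G) (x : G) :
    conv k (ind A) x = ∑ y ∈ A, k (x * y⁻¹) := by
  classical
  unfold conv
  rw [tsum_eq_sum (s := A)]
  · refine Finset.sum_congr rfl fun y hy => ?_
    simp [ind, hy]
  · intro y hy
    simp [ind, hy]

lemma T5_le_one (p : ℝ) (hp : 1 < p) (k : G → ℝ≥0∞)
    (hk : ∀ ξ : G → ℝ≥0∞, S p (conv k ξ) ≤ S p ξ) (x : G) : k x ≤ 1 := by
  classical
  have h1 := hk (ind {1})
  rw [T5_ind_sum p hp] at h1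
  have h2 : (k x) ^ p ≤ S p (conv k (ind {1})) := by
    have h : conv k (ind {1}) x = k x := by
      rw [T5_conv_ind]; simp
    have h' : (conv k (ind {1}) x) ^ p ≤ S p (conv k (ind {1})) :=
      ENNReal.le_tsum (f := fun x => (conv k (ind {1}) x) ^ p) x
    rwa [h] at h'
  have h3 : (k x) ^ p ≤ 1 := h2.trans (by simpa using h1)
  by_contra hc
  push Not at hc
  have := ENNReal.one_lt_rpow hc (by linarith : 0 < p)
  exact absurd h3 (not_le.mpr this)

noncomputable def T5_c (m : ℕ) : ℝ≥0∞ := (2 : ℝ≥0∞)⁻¹ ^ (m + 1)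

lemma T5_c_part (n : ℕ) : ∑ m ∈ Finset.range n, T5_c m + 2⁻¹ ^ n = 1 := by
  induction n with
  | zero => simp
  | succ n ih =>
    rw [Finset.sum_range_succ]
    have h : T5_c n + 2⁻¹ ^ (n + 1) = (2⁻¹ : ℝ≥0∞) ^ n := by
      unfold T5_c
      rw [← two_mul, pow_succ, mul_comm ((2⁻¹ : ℝ≥0∞) ^ n), ← mul_assoc,
        ENNReal.mul_inv_cancel (by norm_num) (by norm_num), one_mul]
    rw [add_assoc, h, ih]

lemma T5_c_sum : ∑' m, T5_c m = 1 := by
  have h1 := ENNReal.tendsto_nat_tsum T5_c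
  have h2 : Filter.Tendsto (fun n => ∑ m ∈ Finset.range n, T5_c m + (2⁻¹ : ℝ≥0∞) ^ n)
      Filter.atTop (nhds (∑' m, T5_c m + 0)) := by
    refine h1.add ?_
    exact ENNReal.tendsto_pow_atTop_nhds_zero_of_lt_one (by
      rw [ENNReal.inv_lt_one]; norm_num)
  simp only [T5_c_part, add_zero] at h2
  exact (tendsto_nhds_unique h2 tendsto_const_nhds)

lemma T5_jensen (p : ℝ) (hp : 1 < p) (v : ℕ → ℝ≥0∞) :
    (∑' m, T5_c m * v m) ^ p ≤ ∑' m, T5_c m * v m ^ p := by
  have hfin : ∀ n, (∑ m ∈ Finset.range n, T5_c m * v m) ^ p ≤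
      ∑ m ∈ Finset.range n, T5_c m * v m ^ p := by
    intro n
    have hw : ∑ m ∈ Finset.range (n + 1), (if m < n then T5_c m else (2⁻¹ : ℝ≥0∞) ^ n) = 1 := by
      rw [Finset.sum_range_succ, if_neg (lt_irrefl n), ← T5_c_part n]
      congr 1
      refine Finset.sum_congr rfl fun m hm => ?_
      rw [if_pos (Finset.mem_range.mp hm)]
    have h := ENNReal.rpow_arith_mean_le_arith_mean_rpow (Finset.range (n + 1))
      (fun m => if m < n then T5_c m else (2⁻¹ : ℝ≥0∞) ^ n) (fun m => if m < n then v m else 0)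
      hw hp.le
    rw [Finset.sum_range_succ, Finset.sum_range_succ] at h
    simp only [lt_irrefl, if_false, mul_zero, add_zero,
      ENNReal.zero_rpow_of_pos (by linarith : 0 < p)] at h
    have e1 : ∑ m ∈ Finset.range n, (if m < n then T5_c m else (2⁻¹ : ℝ≥0∞) ^ n) *
        (if m < n then v m else 0) = ∑ m ∈ Finset.range n, T5_c m * v m :=
      Finset.sum_congr rfl fun m hm => by
        rw [if_pos (Finset.mem_range.mp hm), if_pos (Finset.mem_range.mp hm)]
    have e2 : ∑ m ∈ Finset.range n, (if m < n then T5_c m else (2⁻¹ : ℝ≥0∞) ^ n) *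
        (if m < n then v m else 0) ^ p = ∑ m ∈ Finset.range n, T5_c m * v m ^ p :=
      Finset.sum_congr rfl fun m hm => by
        rw [if_pos (Finset.mem_range.mp hm), if_pos (Finset.mem_range.mp hm)]
    rw [e1, e2] at h
    exact h
  have hlim := ENNReal.tendsto_nat_tsum (fun m => T5_c m * v m)
  have hlim2 := ((ENNReal.continuous_rpow_const (y := p)).tendsto _).comp hlim
  exact le_of_tendsto' hlim2 fun n => (hfin n).trans (ENNReal.sum_le_tsum _)

theorem task5 : Task5 := by
  intro G _ p hp hyp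
  classical
  have hp0 : 0 < p := by linarith
  set q : ℕ := ⌈p⌉₊ with hq
  choose k hk A hA hAk using fun m : ℕ => hyp ((2 ^ (m + 1)) ^ q * m)
  let F : G → ℝ≥0∞ := fun x => ∑' m, T5_c m * k m x
  have hF1 : ∀ x, F x ≤ 1 := by
    intro x
    calc F x ≤ ∑' m, T5_c m := ENNReal.tsum_le_tsum fun m => by
            calc T5_c m * k m x ≤ T5_c m * 1 := by
                  gcongr
                  exact T5_le_one p hp (k m) (hk m) x
              _ = T5_c m := mul_one _
      _ = 1 := T5_c_sum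
  have hFtop : ∀ x, F x ≠ ⊤ := fun x => ne_top_of_le_ne_top ENNReal.one_ne_top (hF1 x)
  have hconv : ∀ (X : G → ℝ≥0∞), S p (conv F X) ≤ S p X := by
    intro X
    have h1 : ∀ x, conv F X x = ∑' m, T5_c m * conv (k m) X x := by
      intro x
      simp only [conv, F]
      simp_rw [← ENNReal.tsum_mul_right, ← ENNReal.tsum_mul_left]
      rw [ENNReal.tsum_comm]
      exact tsum_congr fun m => tsum_congr fun y => by ring
    calc S p (conv F X) = ∑' x, (∑' m, T5_c m * conv (k m) X x) ^ p := by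
            unfold S
            exact tsum_congr fun x => by rw [h1]
      _ ≤ ∑' x, ∑' m, T5_c m * (conv (k m) X x) ^ p :=
            ENNReal.tsum_le_tsum fun x => T5_jensen p hp _
      _ = ∑' m, ∑' x, T5_c m * (conv (k m) X x) ^ p := ENNReal.tsum_comm
      _ = ∑' m, T5_c m * S p (conv (k m) X) := tsum_congr fun m => by
            rw [ENNReal.tsum_mul_left]; rfl
      _ ≤ ∑' m, T5_c m * S p X := ENNReal.tsum_le_tsum fun m => by
            gcongr
            exact hk m X
      _ = S p X := by rw [ENNReal.tsum_mul_right, T5_c_sum, one_mul]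
  refine ⟨fun x => ((F x).toReal : ℂ), ⟨1, fun ξ => ?_⟩, ?_⟩
  · set X : G → ℝ≥0∞ := fun y => ENNReal.ofReal ‖ξ y‖ with hX
    set a : G → ℝ := fun g => ‖∑ k ∈ ξ.support, ((F (g * k⁻¹)).toReal : ℂ) * ξ k‖ with ha
    have ha0 : ∀ g, 0 ≤ a g := fun g => norm_nonneg _
    have hle : ∀ g, ENNReal.ofReal (a g) ≤ conv F X g := by
      intro g
      have e : conv F X g = ∑ y ∈ ξ.support, F (g * y⁻¹) * X y := by
        unfold conv
        refine tsum_eq_sum fun y hy => ?_
        have : ξ y = 0 := Finsupp.notMem_support_iff.mp hy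
        simp [hX, this]
      rw [e]
      have h2 : a g ≤ ∑ y ∈ ξ.support, (F (g * y⁻¹)).toReal * ‖ξ y‖ := by
        refine (norm_sum_le _ _).trans (le_of_eq (Finset.sum_congr rfl fun y _ => ?_))
        rw [norm_mul, Complex.norm_real, Real.norm_of_nonneg ENNReal.toReal_nonneg]
      refine (ENNReal.ofReal_le_ofReal h2).trans (le_of_eq ?_)
      rw [ENNReal.ofReal_sum_of_nonneg (fun y _ => by positivity)]
      refine Finset.sum_congr rfl fun y _ => ?_
      rw [ENNReal.ofReal_mul ENNReal.toReal_nonneg, ENNReal.ofReal_toReal (hFtop _)]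
    have hSX : S p X = ENNReal.ofReal (∑ k ∈ ξ.support, ‖ξ k‖ ^ p) := by
      rw [ENNReal.ofReal_sum_of_nonneg (fun y _ => by positivity)]
      unfold S
      rw [tsum_eq_sum (s := ξ.support)]
      · refine Finset.sum_congr rfl fun y _ => ?_
        rw [hX]
        exact ENNReal.ofReal_rpow_of_nonneg (norm_nonneg _) (by linarith)
      · intro y hy
        have h0 : X y = 0 := by
          have : ξ y = 0 := Finsupp.notMem_support_iff.mp hy
          simp [hX, this]
        rw [h0]
        exact ENNReal.zero_rpow_of_pos hp0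
    have hb : ∀ g, (ENNReal.ofReal (a g)) ^ p = ENNReal.ofReal (a g ^ p) := fun g =>
      ENNReal.ofReal_rpow_of_nonneg (ha0 g) hp0.le
    have htot : ∑' g, ENNReal.ofReal (a g ^ p) ≤
        ENNReal.ofReal (∑ k ∈ ξ.support, ‖ξ k‖ ^ p) := by
      rw [← hSX]
      refine le_trans ?_ (hconv X)
      unfold S
      refine ENNReal.tsum_le_tsum fun g => ?_
      rw [← hb g]
      exact ENNReal.rpow_le_rpow (hle g) hp0.le
    have hne : ∑' g, ENNReal.ofReal (a g ^ p) ≠ ⊤ :=
      ne_top_of_le_ne_top ENNReal.ofReal_ne_top htot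
    have hpos : ∀ g, 0 ≤ a g ^ p := fun g => Real.rpow_nonneg (ha0 g) _
    have hsum : Summable (fun g => a g ^ p) := by
      have := ENNReal.summable_toReal hne
      refine this.congr fun g => ?_
      exact ENNReal.toReal_ofReal (hpos g)
    refine ⟨hsum, ?_⟩
    rw [one_mul]
    have h5 : ENNReal.ofReal (∑' g, a g ^ p) ≤ ENNReal.ofReal (∑ k ∈ ξ.support, ‖ξ k‖ ^ p) := by
      rw [ENNReal.ofReal_tsum_of_nonneg hpos hsum]
      exact htot
    exact (ENNReal.ofReal_le_ofReal_iff (Finset.sum_nonneg fun y _ => by positivity)).mp h5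
  · rintro ⟨C, hC⟩
    obtain ⟨m, hm⟩ := ENNReal.exists_nat_gt (ENNReal.ofReal_ne_top (r := C))
    set ξ : G →₀ ℂ := Finsupp.indicator (A m) (fun _ _ => (1 : ℂ)) with hξ
    have hsupp : ξ.support = A m := by
      ext x
      simp [hξ, Finsupp.indicator_apply]
    have hval : ∀ x ∈ A m, ξ x = 1 := by
      intro x hx
      simp [hξ, Finsupp.indicator_apply, hx]
    obtain ⟨h1, h2⟩ := hC ξ
    rw [hsupp] at h1 h2
    set b : G → ℝ≥0∞ := conv (fun x => F x⁻¹) (ind (A m)) with hb
    have hbg : ∀ g, b g = ∑ y ∈ A m, F (g * y⁻¹)⁻¹ := fun g => T5_conv_ind _ _ _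
    have hbtop : ∀ g, b g ≠ ⊤ := by
      intro g
      rw [hbg]
      exact (ENNReal.sum_ne_top).mpr fun y _ => hFtop _
    have hnorm : ∀ g, ‖∑ k ∈ A m, starRingEnd ℂ (((F (g * k⁻¹)⁻¹).toReal : ℂ)) * ξ k‖ =
        (b g).toReal := by
      intro g
      have e1 : ∑ k ∈ A m, starRingEnd ℂ (((F (g * k⁻¹)⁻¹).toReal : ℂ)) * ξ k =
          (((b g).toReal : ℝ) : ℂ) := by
        rw [hbg, ENNReal.toReal_sum (fun y _ => hFtop _)]
        push_cast
        refine Finset.sum_congr rfl fun k hk => ?_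
        rw [hval k hk, mul_one, Complex.conj_ofReal]
      rw [e1, Complex.norm_real, Real.norm_of_nonneg ENNReal.toReal_nonneg]
    simp only [hnorm] at h1 h2
    have h3 : ∑ k ∈ A m, ‖ξ k‖ ^ p = (A m).card := by
      rw [Finset.sum_congr rfl (g := fun _ => (1 : ℝ))]
      · simp
      · intro x hx
        rw [hval x hx]; simp
    rw [h3] at h2
    have h4 : S p b ≤ ENNReal.ofReal (C * (A m).card) := by
      have e : S p b = ∑' g, ENNReal.ofReal ((b g).toReal ^ p) := by
        unfold S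
        refine tsum_congr fun g => ?_
        rw [← ENNReal.ofReal_rpow_of_nonneg ENNReal.toReal_nonneg hp0.le,
          ENNReal.ofReal_toReal (hbtop g)]
      rw [e, ← ENNReal.ofReal_tsum_of_nonneg (fun g => by positivity) h1]
      exact ENNReal.ofReal_le_ofReal h2
    have h5 : T5_c m ^ p * S p (conv (fun x => k m x⁻¹) (ind (A m))) ≤ S p b := by
      unfold S
      rw [← ENNReal.tsum_mul_left]
      refine ENNReal.tsum_le_tsum fun g => ?_
      rw [← ENNReal.mul_rpow_of_nonneg _ _ hp0.le]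
      refine ENNReal.rpow_le_rpow ?_ hp0.le
      rw [hbg, T5_conv_ind, Finset.mul_sum]
      refine Finset.sum_le_sum fun y _ => ?_
      exact ENNReal.le_tsum (f := fun m => T5_c m * k m (g * y⁻¹)⁻¹) m
    have h6 : T5_c m ^ p * ((((2 ^ (m + 1)) ^ q * m : ℕ) : ℝ≥0∞) * (A m).card) ≤
        ENNReal.ofReal C * (A m).card := by
      calc T5_c m ^ p * ((((2 ^ (m + 1)) ^ q * m : ℕ) : ℝ≥0∞) * (A m).card)
          ≤ T5_c m ^ p * S p (conv (fun x => k m x⁻¹) (ind (A m))) := by
              gcongr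
              have := hAk m
              rwa [T5_ind_sum p hp] at this
        _ ≤ S p b := h5
        _ ≤ ENNReal.ofReal (C * (A m).card) := h4
        _ = ENNReal.ofReal C * (A m).card := by
              rw [ENNReal.ofReal_mul' (by positivity), ENNReal.ofReal_natCast]
    have hcard : ((A m).card : ℝ≥0∞) ≠ 0 := by
      have := (hA m).card_pos
      exact_mod_cast this.ne'
    have h7 : T5_c m ^ p * (((2 ^ (m + 1)) ^ q * m : ℕ) : ℝ≥0∞) ≤ ENNReal.ofReal C := by
      rw [← mul_assoc] at h6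
      exact (ENNReal.mul_le_mul_iff_left hcard (ENNReal.natCast_ne_top _)).mp h6
    have hc1 : T5_c m ≤ 1 := by
      unfold T5_c
      exact pow_le_one' (by rw [ENNReal.inv_le_one]; norm_num) _
    have h8 : (m : ℝ≥0∞) ≤ T5_c m ^ p * (((2 ^ (m + 1)) ^ q * m : ℕ) : ℝ≥0∞) := by
      have h9 : T5_c m ^ (q : ℝ) ≤ T5_c m ^ p :=
        ENNReal.rpow_le_rpow_of_exponent_ge hc1 (Nat.le_ceil p)
      calc (m : ℝ≥0∞) = T5_c m ^ q * (((2 ^ (m + 1)) ^ q * m : ℕ) : ℝ≥0∞) := by
              unfold T5_c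
              push_cast
              rw [← mul_assoc, ← mul_pow, ← mul_pow,
                ENNReal.inv_mul_cancel (by norm_num) (by norm_num), one_pow, one_pow, one_mul]
        _ ≤ T5_c m ^ p * (((2 ^ (m + 1)) ^ q * m : ℕ) : ℝ≥0∞) := by
              rw [← ENNReal.rpow_natCast]
              gcongr
    exact absurd (h8.trans h7) (not_le.mpr hm)

end T5

end H611CV
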