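import Pool.Agent.H611CV.Stmts

set_option autoImplicit false

open scoped ENNReal

namespace H611CV

theorem task6 : Task6 := by
  classical
  intro G _ s t J N ξ
  have key : ∀ (a x : G), ∑' y, (if x * y⁻¹ = a then (1 : ℝ≥0∞) else 0) * ξ y = ξ (a⁻¹ * x) := by
    intro a x
    rw [tsum_eq_single (a⁻¹ * x)]
    · simp
    · intro y hy
      rw [if_neg, zero_mul]
      rintro rfl
      apply hy
      group
  have key2 : ∀ (a x : G), ∑' y, (if (x * y⁻¹)⁻¹ = a then (1 : ℝ≥0∞) else 0) * ξ y = ξ (a * x) := by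
    intro a x
    rw [tsum_eq_single (a * x)]
    · simp
    · intro y hy
      rw [if_neg, zero_mul]
      rintro rfl
      apply hy
      group
  constructor
  · funext x
    simp only [conv, ker, opF]
    have : ∀ y : G, (N : ℝ≥0∞)⁻¹ * (∑ i ∈ Finset.range J, ∑ n ∈ Finset.range N,
        (if x * y⁻¹ = t ^ (i + 1) * s * t ^ (n + 1) then (1 : ℝ≥0∞) else 0)) * ξ y =
        (N : ℝ≥0∞)⁻¹ * ∑ i ∈ Finset.range J, ∑ n ∈ Finset.range N,
        (if x * y⁻¹ = t ^ (i + 1) * s * t ^ (n + 1) then (1 : ℝ≥0∞) else 0) * ξ y := by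
      intro y
      rw [mul_assoc, Finset.sum_mul]
      simp only [Finset.sum_mul]
    simp only [this]
    rw [ENNReal.tsum_mul_left]
    congr 1
    rw [Summable.tsum_finsetSum (fun i _ => ENNReal.summable)]
    refine Finset.sum_congr rfl fun i _ => ?_
    rw [Summable.tsum_finsetSum (fun i _ => ENNReal.summable)]
    refine Finset.sum_congr rfl fun n _ => ?_
    exact key _ _
  · funext x
    simp only [conv, ker, opG]
    have : ∀ y : G, (N : ℝ≥0∞)⁻¹ * (∑ i ∈ Finset.range J, ∑ n ∈ Finset.range N,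
        (if (x * y⁻¹)⁻¹ = t ^ (i + 1) * s * t ^ (n + 1) then (1 : ℝ≥0∞) else 0)) * ξ y =
        (N : ℝ≥0∞)⁻¹ * ∑ i ∈ Finset.range J, ∑ n ∈ Finset.range N,
        (if (x * y⁻¹)⁻¹ = t ^ (i + 1) * s * t ^ (n + 1) then (1 : ℝ≥0∞) else 0) * ξ y := by
      intro y
      rw [mul_assoc, Finset.sum_mul]
      simp only [Finset.sum_mul]
    simp only [this]
    rw [ENNReal.tsum_mul_left]
    congr 1
    rw [Summable.tsum_finsetSum (fun i _ => ENNReal.summable)]
    refine Finset.sum_congr rfl fun i _ => ?_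
    rw [Summable.tsum_finsetSum (fun i _ => ENNReal.summable)]
    refine Finset.sum_congr rfl fun n _ => ?_
    exact key2 _ _

end H611CV
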